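import Pool.Agent.Lib.KV93.Man
import Pool.Agent.Lib.KC.Defs

/-! Removal of the poles, for tensors and for the base data. -/

open scoped Topology ENNReal Real Classical ComplexOrder Matrix
open Set Filter Metric MeasureTheory Complex

noncomputable section

namespace Pool.Agent.Lib.KV93

open Pool.Agent.Lib.SV (E)
open Pool.Agent.Lib.HS32 Pool.Agent.Lib.KH Pool.Agent.Lib.KC
open Pool.Agent.Lib.RAA (hq kp kq st_KQ)
open Pool.Agent.Lib.KT (Tn)
open MvPolynomial (eval)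

variable {n : ℕ} {M : Mf n}

theorem hq_near {σ : Type} [Fintype σ] {A : E n → Matrix σ σ ℂ} {z : E n} (hA : ContinuousAt A z)
    (h : (A z).PosDef) : ∃ c > (0 : ℝ), ∀ᶠ x in 𝓝 z, ∀ v, c * ‖v‖ ^ 2 ≤ hq (A x) v := by
  have h2 : Continuous fun p : Matrix σ σ ℂ × (σ → ℂ) => hq p.1 p.2 := by
    unfold hq
    fun_prop
  have hc : ∀ v, ContinuousAt (fun p : E n × (σ → ℂ) => hq (A p.1) p.2) (z, v) := fun v =>
    ContinuousAt.comp (g := fun p : Matrix σ σ ℂ × (σ → ℂ) => hq p.1 p.2)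
      (f := fun p : E n × (σ → ℂ) => (A p.1, p.2)) h2.continuousAt
      ((ContinuousAt.comp (x := (z, v)) (f := Prod.fst) hA continuousAt_fst).prodMk continuousAt_snd)
  have hS := isCompact_sphere (0 : σ → ℂ) 1
  obtain ⟨c, c0, hc0⟩ := hS.exists_forall_le' (f := fun v => hq (A z) v) (a := 0)
    (fun v _ => ((hc v).comp (f := fun v => (z, v)) (by fun_prop)).continuousWithinAt)
    fun v hv => h.re_dotProduct_pos (ne_of_mem_sphere hv one_ne_zero)
  have e : ∀ᶠ x in 𝓝 z, ∀ v ∈ sphere (0 : σ → ℂ) 1, c / 2 < hq (A x) v :=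
    hS.eventually_forall_of_forall_eventually fun v hv =>
      (hc v).tendsto.eventually_const_lt ((half_lt_self c0).trans_le (hc0 v hv))
  refine ⟨c / 2, half_pos c0, e.mono fun x hx v => ?_⟩
  rcases eq_or_ne v 0 with rfl | hv
  · simp [hq]
  have h1 := norm_pos_iff.2 hv
  have h3 := hx (‖v‖⁻¹ • v) (by simp [norm_smul, h1.ne'])
  have h4 : hq (A x) (‖v‖⁻¹ • v) = (‖v‖ ^ 2)⁻¹ * hq (A x) v := by
    simp only [hq, Matrix.mulVec_smul, star_smul, star_trivial, smul_dotProduct, dotProduct_smul,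
      real_smul, re_ofReal_mul]
    ring
  rw [h4, lt_inv_mul_iff₀ (pow_pos h1 2)] at h3
  linarith

theorem lp_tn [M.Cpt] {H : M.Fam (Mat n)} (hH : M.Met H) (τ : Tn M) : Lp M.C τ.O (τ.pn H) := by
  intro x
  obtain ⟨he, hx⟩ := (mTR n M).1 x
  set e := M.ch x
  have hz := e.map_source hx
  obtain ⟨I, hI⟩ := τ.freq e he _ hz
  have cH := (hH.sm e he _ hz).continuousAt
  obtain ⟨c, c0, hc⟩ := hq_near (A := fun w => kp τ.N (H e w)) (z := e x)
    (continuousAt_pi.2 fun f => continuousAt_pi.2 fun g => by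
      exact tendsto_finsetProd Finset.univ fun a _ =>
        continuousAt_pi.1 (continuousAt_pi.1 cH (f a)) (g a))
    (((st_KQ τ.N (Fin n) (Fin n) (Fin n)).2.2.2.2.1 _).2 fun _ => hH.pos e he _ hz)
  have cd : ContinuousAt (fun w => (H e w).det.re ^ τ.B) (e x) :=
    (continuous_re.continuousAt.comp (continuous_id.matrix_det.continuousAt.comp cH)).pow _
  have d0 := fun w hw => pow_pos (Mf.pd_det_re (hH.pos e he w hw)) τ.B
  refine ⟨e, he, hx, fun w => τ.s e w I, ((H e (e x)).det.re ^ τ.B + 1) / c,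
    div_pos (add_pos (d0 _ hz) one_pos) c0, τ.tw.hol e he _ hz I, hI, ?_⟩
  filter_upwards [hc, cd.eventually_lt_const (lt_add_one _), e.open_target.mem_nhds hz]
    with w h1 h2 h3
  refine ⟨fun h => (τ.mem_O e he w h3).2 fun k => h (congrFun k I), ?_⟩
  rw [(τ.pn_rep hH).1 e he w h3]
  beta_reduce
  rw [DM.uv, div_mul_div_comm, le_div_iff₀ (mul_pos c0 (d0 w h3)),
    ← Complex.sq_norm, ← mul_assoc, mul_comm]
  refine mul_le_mul h2.le (le_trans ?_ (h1 _)) (by positivity) ((d0 w h3).le.trans h2.le)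
  rw [mul_comm]
  gcongr
  exact norm_le_pi_norm _ I

section
variable {ι : Type} [Fintype ι] {h : ι → M.X → ℂ} {N : M.X → ℝ} {O : Set M.X}

/-- Holomorphic with polynomial growth. -/
def Gr (O : Set M.X) (N : M.X → ℝ) (f : M.X → ℂ) (m : ℕ) : Prop :=
  HoK M O f ∧ ∃ C, ∀ x ∈ O, normSq (f x) ≤ C * N x ^ m

theorem Gr.mul {f f' : M.X → ℂ} {m m' : ℕ} (a : Gr O N f m)
    (b : Gr O N f' m') : Gr O N (f * f') (m + m') := by
  obtain ⟨C, hC⟩ := a.2
  obtain ⟨C', hC'⟩ := b.2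
  refine ⟨fun e he z hz zO => ((a.1 e he z hz zO).and (b.1 e he z hz zO)).mono fun _ k =>
    k.1.mul k.2, C * C', fun x hx => ?_⟩
  rw [Pi.mul_apply, map_mul, pow_add, mul_mul_mul_comm]
  exact mul_le_mul (hC x hx) (hC' x hx) (normSq_nonneg _) ((normSq_nonneg _).trans (hC x hx))

theorem Gr.mono {f : M.X → ℂ} {m m' : ℕ} (N1 : ∀ x ∈ O, 1 ≤ N x) (a : Gr O N f m) (e : m ≤ m') :
    ∃ C ≥ (0 : ℝ), ∀ x ∈ O, normSq (f x) ≤ C * N x ^ m' :=
  let ⟨C, hC⟩ := a.2
  ⟨|C|, abs_nonneg _, fun x hx => (hC x hx).trans (mul_le_mul (le_abs_self _)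
    (pow_le_pow_right₀ (N1 x hx) e) (pow_nonneg (zero_le_one.trans (N1 x hx)) _) (abs_nonneg _))⟩

theorem gr_eval (hh : ∀ i, HoK M O (h i)) (hN : ∀ x ∈ O, N x = 1 + ∑ i, normSq (h i x))
    (P : MvPolynomial ι ℂ) : ∃ m, Gr O N (fun y => eval (h · y) P) m := by
  have N1 : ∀ x ∈ O, 1 ≤ N x := fun x hx => by
    have := Finset.sum_nonneg fun i (_ : i ∈ Finset.univ) => normSq_nonneg (h i x)
    linarith [hN x hx]
  induction P using MvPolynomial.induction_on with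
  | C a => exact ⟨0, fun e _ z _ _ => Eventually.of_forall fun _ => by
      simp only [MvPolynomial.eval_C, Function.comp_def]
      exact differentiableAt_const _, normSq a, by simp⟩
  | add P Q a b =>
    obtain ⟨m, a⟩ := a
    obtain ⟨m', b⟩ := b
    obtain ⟨C, -, hC⟩ := a.mono N1 (le_max_left m m')
    obtain ⟨C', -, hC'⟩ := b.mono N1 (le_max_right m m')
    simp only [map_add]
    refine ⟨max m m', fun e he z hz zO => ((a.1 e he z hz zO).and (b.1 e he z hz zO)).mono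
      fun _ k => k.1.add k.2, 2 * C + 2 * C', fun x hx => ?_⟩
    have h1 := hC x hx
    have h2 := hC' x hx
    have h3 := normSq_nonneg (eval (h · x) P - eval (h · x) Q)
    rw [normSq_sub] at h3
    rw [normSq_add]
    linarith
  | mul_X P i a =>
    obtain ⟨m, a⟩ := a
    simp only [map_mul, MvPolynomial.eval_X]
    exact ⟨m + 1, a.mul ⟨hh i, 1, fun x hx => by
      have := Finset.single_le_sum (fun i _ => normSq_nonneg (h i x)) (Finset.mem_univ i)
      linarith [hN x hx]⟩⟩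

theorem nz_freq [M.Cpt] (B : Bs M) {x c : ℕ} {g : M.X → ℂ} (hg : B.Gn x c g) :
    ∀ y ∈ B.O, ∃ᶠ w in 𝓝 y, g w ≠ 0 := fun y hy e => by
  obtain ⟨ε, e0, hε⟩ := B.neg x c g hg.1 hg.2
  obtain ⟨U, h1, h2, h3⟩ := _root_.mem_nhds_iff.1 (e.and (B.opn.mem_nhds hy))
  have := (mMU n M B.H B.kae.toMet).2.2.1
  refine hε (top_le_iff.1 (le_trans ?_ (lintegral_mono_set (s := U) fun w hw => (h1 hw).2)))
  rw [setLIntegral_congr_fun h2.measurableSet (g := fun _ => ⊤) fun w hw => by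
    simp [ng, not_not.1 (h1 hw).1, e0], setLIntegral_const, ENNReal.top_mul (h2.measure_ne_zero _ ⟨y, h3⟩)]

theorem pw {T p θ : ℝ} {x j c : ℕ} (T0 : 0 < T) (p0 : 0 < p) (p1 : p ≤ 1) (x0 : 0 < x) (xj : x ≤ j)
    (cj : c * x ≤ θ * j) : T ^ x * p ^ θ ≤ 1 ∨ T ^ x * p ^ θ ≤ T ^ j * p ^ c := by
  refine (le_total _ _).imp_right fun h => ?_
  have x1 : (0 : ℝ) < x := by exact_mod_cast x0
  have := Real.rpow_le_rpow_of_exponent_le h (y := 1) (z := j / x)
    ((one_le_div x1).2 (by exact_mod_cast xj))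
  rw [Real.rpow_one, Real.mul_rpow (by positivity) (by positivity), ← Real.rpow_natCast_mul T0.le,
    mul_div_cancel₀ _ x1.ne', Real.rpow_natCast, ← Real.rpow_mul p0.le] at this
  refine this.trans (mul_le_mul_of_nonneg_left ?_ (by positivity))
  rw [← Real.rpow_natCast]
  exact Real.rpow_le_rpow_of_exponent_ge p0 p1 (by rwa [← mul_div_assoc, le_div_iff₀ x1])

/-- The removal of the last poles. -/
theorem valB [M.Cpt] (B : Bs M) {S : Set M.Ch} (hS : S ⊆ M.C) (hp : Lp S B.O B.p)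
    (hT : Lm S B.O B.T) (hh : ∀ i, B.Gm 0 1 (h i))
    (hN : ∀ x ∈ B.O, N x = 1 + ∑ i, normSq (h i x))
    (rat : ∀ x a g, B.Gn x a g → ∃ P P' : MvPolynomial ι ℂ, Nz M B.O (fun y => eval (h · y) P') ∧
      ∀ y ∈ B.O, g y * eval (h · y) P' = eval (h · y) P)
    (ai : ∃ c, ∀ J, ∃ j ≥ J, ∃ g, B.Gn j c g) : B.Val N := by
  have N1 : ∀ x ∈ B.O, 1 ≤ N x := fun x hx => by
    have := Finset.sum_nonneg fun i (_ : i ∈ Finset.univ) => normSq_nonneg (h i x)
    linarith [hN x hx]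
  have N0 := fun x hx => zero_le_one.trans (N1 x hx)
  choose K hK using fun i => (hh i).2
  have pN : ∀ x ∈ B.O, B.p x * N x ≤ 1 + ∑ i, K i := fun x hx => by
    rw [hN x hx, mul_add, mul_one, Finset.mul_sum]
    exact add_le_add (B.pos x hx).2.1 (Finset.sum_le_sum fun i _ => by
      simpa [mul_comm] using hK i x hx)
  have gm : ∀ {f m}, Gr B.O N f m → B.Gm 0 m f := fun {f m} a => by
    obtain ⟨C, c0, hC⟩ := a.mono N1 le_rfl
    refine ⟨a.1, C * (1 + ∑ i, K i) ^ m, fun x hx => ?_⟩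
    have p0 := (B.pos x hx).1.le
    have := N0 x hx
    rw [pow_zero, one_mul]
    refine (mul_le_mul_of_nonneg_right (hC x hx) (pow_nonneg p0 _)).trans ?_
    rw [mul_assoc, ← mul_pow, mul_comm (N x)]
    gcongr
    exact pN x hx
  have nz : ∀ {f f' : M.X → ℂ} {x c : ℕ}, B.Gn x c f → HoK M B.O f' → Nz M B.O f' →
      Nz M B.O (f * f') := fun {_ f' _ _} hf h1 ⟨y, hy, h2⟩ => by
    have c : ContinuousAt f' y := ((h1 _ (Mf.ch_mem y) _ (Mf.ch_tgt y) (by rwa [Mf.ch_symm])).self_of_nhds.continuousAt.comp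
      ((M.ch y).continuousAt (Mf.mem_ch y))).congr (((M.ch y).eventually_left_inverse
        (Mf.mem_ch y)).mono fun w hw => congrArg f' hw)
    obtain ⟨w, w1, w2, w3⟩ := ((nz_freq B hf y hy).and_eventually
      ((c.eventually_ne h2).and (B.opn.mem_nhds hy))).exists
    exact ⟨w, w3, mul_ne_zero w1 w2⟩
  have hF : Fm B.O N {a | Gr B.O N a.1 a.2 ∧ Nz M B.O a.1} :=
    ⟨by
      obtain ⟨c, hc⟩ := ai
      obtain ⟨j, -, g, hg⟩ := hc 0
      obtain ⟨-, P, k, -⟩ := rat j c g hg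
      exact (gr_eval (fun i => (hh i).1) hN P).elim fun m a => ⟨(_, m), a, k⟩,
    fun a ha b hb => ⟨ha.1.mul hb.1, nz ⟨gm ha.1, ha.2⟩ hb.1.1 hb.2⟩, fun a ha => ha.1.1,
    fun a ha => ha.1.2, fun a ha => nz_freq B ⟨gm ha.1, ha.2⟩⟩
  obtain ⟨d, a, ha, k⟩ := valM B.kae.toMet hS hp (fun i => (hh i).1) hN ⟨_, pN⟩ hF
  refine ⟨a.2, a.2, a.1, d + 1, ⟨gm ha.1, ha.2⟩, by positivity, fun x c F κ ε x0 hf k0 k1 hi => ?_⟩
  obtain ⟨C, hC⟩ := k (fun y => normSq (F y) * B.T y ^ x) κ ε (fun e he => by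
    obtain ⟨φ, w, cw, hw⟩ := hT e he
    refine ⟨fun z => (F ∘ e.symm) z * φ z ^ x, fun z => w z ^ x, cw.pow x, fun z hz =>
      ⟨pow_pos (hw z hz).1 x, fun zO => ⟨((hf.1.1 e (hS he) z hz zO).and
        ((hw z hz).2 zO).1).mono fun _ k => k.1.mul (k.2.pow x), ?_⟩⟩⟩
    simp only [((hw z hz).2 zO).2, map_mul, map_pow, Function.comp]
    ring) k0.le (by linarith) (fun θ t0 => by
    obtain ⟨c0, hc⟩ := ai
    obtain ⟨j, hj, g, hg⟩ := hc (x + ⌈c0 * x / θ⌉₊)
    obtain ⟨P, P', p1, p2⟩ := rat x c F hf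
    obtain ⟨R, R', r1, r2⟩ := rat j c0 g hg
    choose m hm using gr_eval (fun i => (hh i).1) hN
    obtain ⟨y, hy, r3⟩ := nz hg (hm R').1 r1
    obtain ⟨C1, c1, hC1⟩ := (hm P).mono N1 le_rfl
    obtain ⟨C2, c2, hC2⟩ := (hm R).mono N1 (le_max_left _ (m R'))
    obtain ⟨C3, c3, hC3⟩ := (hm R').mono N1 (le_max_right (m R) _)
    obtain ⟨C4, hC4⟩ := hg.1.2
    have b := (hm P').mul (hm R)
    obtain ⟨C5, c5, hC5⟩ := b.mono N1 (m' := m P' + m R + (m P + max (m R) (m R'))) (by omega)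
    refine ⟨(_, m P' + m R + (m P + max (m R) (m R'))), ⟨⟨b.1, C5, hC5⟩,
      nz ⟨gm (hm P'), p1⟩ (hm R).1 ⟨y, hy, (r2 y hy).symm.trans_ne r3⟩⟩, C1 * (C2 + |C4| * C3), fun y hy => ?_⟩
    obtain ⟨p0, p3, T0⟩ := B.pos y hy
    have n0 := N0 y hy
    have l1 : B.T y ^ x * B.p y ^ θ * normSq (eval (h · y) R) ≤
        (C2 + |C4| * C3) * N y ^ max (m R) (m R') := by
      rw [add_mul]
      rcases pw T0 p0 p3 x0 (le_trans le_self_add hj) (θ := θ) (c := c0) (by
        rw [← div_le_iff₀' t0]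
        exact (Nat.le_ceil _).trans (by exact_mod_cast le_trans le_add_self hj)) with l | l
      · exact le_add_of_le_of_nonneg ((mul_le_of_le_one_left (normSq_nonneg _) l).trans (hC2 y hy))
          (by positivity)
      · refine le_add_of_nonneg_of_le (by positivity)
          ((mul_le_mul_of_nonneg_right l (normSq_nonneg _)).trans ?_)
        rw [← r2 y hy, map_mul, ← mul_assoc, mul_comm _ (normSq (g y)), mul_assoc |C4|]
        exact mul_le_mul ((hC4 y hy).trans (le_abs_self _)) (hC3 y hy) (normSq_nonneg _)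
          (abs_nonneg _)
    have l2 := hC1 y hy
    rw [← p2 y hy, map_mul] at l2
    have l3 := mul_le_mul l2 l1 (mul_nonneg (by positivity) (normSq_nonneg _)) (by positivity)
    simp only [Pi.mul_apply, map_mul]
    refine (le_of_eq (by ring)).trans (l3.trans ?_)
    rw [mul_mul_mul_comm, ← pow_add]
    exact mul_le_mul_of_nonneg_left (pow_le_pow_right₀ (N1 y hy) le_add_self) (by positivity)) hi
  exact ⟨F, ⟨hf.1.1, C, fun y hy => by simpa using hC y trivial hy⟩, hf.2⟩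

end

end Pool.Agent.Lib.KV93
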