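import Pool.Agent.Lib.KV93.One
import Pool.Agent.Lib.LJ84.Final
import Pool.Agent.Lib.SV.B_SUB
import Pool.Agent.Lib.SV.B_ZER

/-! The number of roots at which given holomorphic functions vanish is constant almost
everywhere. -/

open scoped Topology ENNReal Real Classical
open Set Filter Metric MeasureTheory Complex

noncomputable section

namespace Pool.Agent.Lib.KV93

open Pool.Agent.Lib.SV Pool.Agent.Lib.LJ84

variable {k d : ℕ} {g : ℂ × E k → ℂ} {O : Set (ℂ × E k)} {p : ℂ × E k} {r c ρ : ℝ}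
  {α : E k → Fin d → ℂ}

theorem aene {f : E k → ℂ} {z : E k} (hf : DifferentiableOn ℂ f (ball z ρ))
    (h : ∃ w ∈ ball z ρ, f w ≠ 0) : ∀ᵐ w, w ∈ ball z ρ → f w ≠ 0 := by
  rw [ae_iff]
  simpa using stZER stSUB k f z ρ hf h

theorem cnt (R : Roots g O p r c (ball p.2 ρ) α) {σ : Type} {a : σ → ℂ × E k → ℂ}
    (ha : ∀ l, DifferentiableOn ℂ (a l) O) : ∃ K : ℕ, ∀ᵐ z, z ∈ ball p.2 ρ →
      (Finset.univ.filter fun b => ∀ l, a l (α z b, z) = 0).card = K := by
  set T := fun z => Finset.univ.filter fun b => ¬ ∀ l, a l (α z b, z) = 0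
  have bd : BddAbove ((fun z => (T z).card) '' ball p.2 ρ) :=
    ⟨d, by rintro _ ⟨z, -, rfl⟩; simpa using Finset.card_le_univ (T z)⟩
  obtain ⟨z0, h0, e0⟩ := Nat.sSup_mem ⟨_, mem_image_of_mem _ R.mem⟩ bd
  obtain ⟨x, hx⟩ := Module.Dual.exists_forall_ne_zero_of_forall_exists
    (fun b : T z0 => Finsupp.linearCombination ℂ fun l => a l (α z0 b, z0)) fun b => by
      obtain ⟨l, hl⟩ := not_forall.1 (Finset.mem_filter.1 b.2).2
      exact ⟨Finsupp.single l 1, by simpa using hl⟩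
  set h := fun y => ∑ l ∈ x.support, x l * a l y
  have nz : ∀ z b, h (α z b, z) ≠ 0 → b ∈ T z := fun z b hb =>
    Finset.mem_filter.2 ⟨Finset.mem_univ _, fun e => hb (by simp [h, e])⟩
  have e1 : es (fun b => h (α z0 b, z0)) (T z0).card ≠ 0 := by
    rw [es, Finset.sum_eq_single_of_mem (T z0) (by simp) fun A hA ne => by
      by_contra hc
      exact ne (Finset.eq_of_subset_of_card_le (fun b hb => nz _ b
        (Finset.prod_ne_zero_iff.1 hc b hb)) (Finset.mem_powersetCard.1 hA).2.ge)]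
    exact Finset.prod_ne_zero_iff.2 fun b hb => hx ⟨b, hb⟩
  refine ⟨d - (T z0).card, (aene (R.hol h (DifferentiableOn.fun_sum fun l _ =>
    (ha l).const_mul _) _) ⟨z0, h0, e1⟩).mono fun z hz zU => ?_⟩
  obtain ⟨A, hA, ne⟩ := Finset.exists_ne_zero_of_sum_ne_zero (hz zU)
  have l1 := (Finset.mem_powersetCard.1 hA).2.ge.trans (Finset.card_le_card fun b hb => nz _ b
    (Finset.prod_ne_zero_iff.1 ne b hb))
  have l2 : (T z).card ≤ (T z0).card := (le_csSup bd (mem_image_of_mem _ zU)).trans e0.ge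
  have l3 := Finset.card_filter_add_card_filter_not (s := Finset.univ)
    fun b => ∀ l, a l (α z b, z) = 0
  rw [Finset.card_univ, Fintype.card_fin] at l3
  change _ + (T z).card = d at l3
  omega

section
variable {W : Type} [NormedAddCommGroup W] [NormedSpace ℂ W] {f : ℂ × E k → W}

/-- The derivative along the slices. -/
def dw (f : ℂ × E k → W) (x : ℂ × E k) : W := fderiv ℂ f x (1, 0)

theorem dw_hol [CompleteSpace W] (hO : IsOpen O) (hf : DifferentiableOn ℂ f O) (i : ℕ) :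
    DifferentiableOn ℂ (dw^[i] f) O := by
  induction i generalizing f with
  | zero => exact hf
  | succ i ih => exact ih (H85.differentiableOn_fderiv_apply hO hf _)

theorem sl_open (hO : IsOpen O) (z : E k) : IsOpen {w : ℂ | (w, z) ∈ O} :=
  hO.preimage (by fun_prop)

theorem sl_hol (hf : DifferentiableOn ℂ f O) (z : E k) :
    DifferentiableOn ℂ (fun w => f (w, z)) {w : ℂ | (w, z) ∈ O} :=
  hf.comp (by fun_prop) fun _ hw => hw

theorem sl_an [CompleteSpace W] (hO : IsOpen O) (hf : DifferentiableOn ℂ f O) {w : ℂ} {z : E k}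
    (h : (w, z) ∈ O) : AnalyticAt ℂ (fun w => f (w, z)) w :=
  (sl_hol hf z).analyticAt ((sl_open hO z).mem_nhds h)

theorem dw_eq [CompleteSpace W] (hO : IsOpen O) (hf : DifferentiableOn ℂ f O) (i : ℕ) {w : ℂ} {z : E k}
    (h : (w, z) ∈ O) : iteratedDeriv i (fun w => f (w, z)) w = dw^[i] f (w, z) := by
  induction i generalizing w with
  | zero => rfl
  | succ i ih =>
    rw [iteratedDeriv_succ, Function.iterate_succ_apply', EventuallyEq.deriv_eq
      (eventually_of_mem ((sl_open hO z).mem_nhds h) fun _ hw => ih hw)]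
    exact (((dw_hol hO hf i).differentiableAt (hO.mem_nhds h)).hasFDerivAt.comp_hasDerivAt w
      ((hasDerivAt_id w).prodMk (hasDerivAt_const w z))).deriv

/-- The order on a slice. -/
def od (f : ℂ × E k → W) (z : E k) (ζ : ℂ) : ℕ∞ := analyticOrderAt (fun w => f (w, z)) ζ

theorem le_od [CompleteSpace W] (hO : IsOpen O) (hf : DifferentiableOn ℂ f O) {w : ℂ} {z : E k}
    (h : (w, z) ∈ O) (j : ℕ) : (j : ℕ∞) ≤ od f z w ↔ ∀ i : Fin j, dw^[i] f (w, z) = 0 := by
  rw [od, natCast_le_analyticOrderAt_iff_iteratedDeriv_eq_zero (sl_an hO hf h), Fin.forall_iff]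
  simp only [dw_eq hO hf _ h]

end

variable {ι : Type} [Fintype ι] {B : ℂ × E k → ι → ℂ} {A : ℂ × E k → ℂ}

theorem Roots.mem' (R : Roots g O p r c (ball p.2 ρ) α) {z : E k} (hz : z ∈ ball p.2 ρ) (b : Fin d) :
    (α z b, z) ∈ O := R.sub ⟨ball_subset_closedBall (R.root z hz b).1, hz⟩

theorem cnt2 (R : Roots g O p r c (ball p.2 ρ) α) (hO : IsOpen O) (hB : DifferentiableOn ℂ B O)
    (hA : DifferentiableOn ℂ A O) (i j : ℕ) : ∃ K : ℕ, ∀ᵐ z, z ∈ ball p.2 ρ →
      (Finset.univ.filter fun b =>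
        (i : ℕ∞) ≤ od B z (α z b) ∧ (j : ℕ∞) ≤ od A z (α z b)).card = K := by
  obtain ⟨K, hK⟩ := cnt R (σ := Fin i × ι ⊕ Fin j)
    (a := Sum.elim (fun l x => dw^[l.1] B x l.2) fun l => dw^[l] A) (by
      rintro (l | l)
      · exact differentiableOn_pi.1 (dw_hol hO hB _) _
      · exact dw_hol hO hA _)
  refine ⟨K, hK.mono fun z hz zU => (congrArg _ (Finset.ext fun b => ?_)).trans (hz zU)⟩
  simp [le_od hO hB (Roots.mem' R zU b), le_od hO hA (Roots.mem' R zU b), funext_iff]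

/-- The quotient of `A` by the power `m` of the norm of `B` vanishes at a point of a slice. -/
def Van (B : ℂ × E k → ι → ℂ) (A : ℂ × E k → ℂ) (m : ℕ) (z : E k) (ζ : ℂ) : Prop :=
  ((m * (od B z ζ).toNat + 1 : ℕ) : ℕ∞) ≤ od A z ζ

theorem cnt3 (R : Roots g O p r c (ball p.2 ρ) α) (hO : IsOpen O) (hB : DifferentiableOn ℂ B O)
    (hA : DifferentiableOn ℂ A O) (hd : ∀ z ∈ ball p.2 ρ, ∀ b, od B z (α z b) ≤ d) (m : ℕ) :
    ∃ K : ℕ, ∀ᵐ z, z ∈ ball p.2 ρ →
      (Finset.univ.filter fun b => Van B A m z (α z b)).card = K := by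
  choose K hK using cnt2 R hO hB hA
  refine ⟨∑ j ∈ Finset.range (d + 1), (K j (m * j + 1) - K (j + 1) (m * j + 1)), ?_⟩
  filter_upwards [ae_all_iff.2 fun i => ae_all_iff.2 (hK i)] with z hz zU
  choose o ho using fun b => ENat.ne_top_iff_exists.1
    (ne_top_of_le_ne_top (ENat.natCast_ne_top d) (hd z zU b))
  rw [Finset.card_eq_sum_card_fiberwise (f := o) (t := Finset.range (d + 1)) fun b _ => by
    have := hd z zU b
    rw [← ho] at this
    simpa [Nat.lt_succ_iff] using this]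
  refine Finset.sum_congr rfl fun j _ => ?_
  rw [← hz j _ zU, ← hz (j + 1) _ zU, ← Finset.card_sdiff_of_subset fun b => by
    simp only [Finset.mem_filter, ← ho, Nat.cast_le]
    exact fun h => ⟨h.1, by omega, h.2.2⟩]
  refine congrArg _ (Finset.ext fun b => ?_)
  simp only [Finset.mem_filter, Finset.mem_sdiff, Van, ← ho, Nat.cast_le, ENat.toNat_natCast,
    Finset.mem_univ, true_and]
  exact ⟨fun ⟨h1, h2⟩ => ⟨⟨h2.ge, h2 ▸ h1⟩, fun h => by omega⟩, fun ⟨⟨h1, h2⟩, h3⟩ => by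
    have : o b = j := by
      by_contra hc
      exact h3 ⟨by omega, h2⟩
    exact ⟨this ▸ h2, this⟩⟩

theorem Roots.nhd (R : Roots g O p r c (ball p.2 ρ) α) {z : E k} (hz : z ∈ ball p.2 ρ) (b : Fin d)
    {P : ℂ × E k → Prop} (h : ∀ x ∈ ball p.1 r ×ˢ ball p.2 ρ, P x) : ∀ᶠ w in 𝓝 (α z b), P (w, z) :=
  eventually_of_mem (isOpen_ball.mem_nhds (R.root z hz b).1) fun _ hw => h _ ⟨hw, hz⟩

theorem od_le (R : Roots g O p r c (ball p.2 ρ) α) (hO : IsOpen O) (hB : DifferentiableOn ℂ B O)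
    (gB : ∀ x ∈ ball p.1 r ×ˢ ball p.2 ρ, ‖g x‖ ≤ ‖B x‖) :
    ∀ z ∈ ball p.2 ρ, ∀ b, od B z (α z b) ≤ d := fun z hz b =>
  ord_le (sl_an hO hB (Roots.mem' R hz b)) R.c0
    (((low R.c0 (R.low z hz) (R.root z hz b).1).and (Roots.nhd R hz b gB)).mono
      fun _ h => h.1.trans h.2)

/-- One member of a multiplicative family vanishes wherever another member does. -/
theorem qz (R : Roots g O p r c (ball p.2 ρ) α) (hO : IsOpen O) (hB : DifferentiableOn ℂ B O)
    (gB : ∀ x ∈ ball p.1 r ×ˢ ball p.2 ρ, ‖g x‖ ≤ ‖B x‖) {σ : Type} [Nonempty σ]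
    {A : σ → ℂ × E k → ℂ} {m : σ → ℕ} (hA : ∀ s, DifferentiableOn ℂ (A s) O ∧
      ∃ C, ∀ x ∈ ball p.1 r ×ˢ ball p.2 ρ, ‖A s x‖ ≤ C * ‖B x‖ ^ m s)
    (mul : ∀ s t, ∃ u, m u = m s + m t ∧ ∀ x ∈ ball p.1 r ×ˢ ball p.2 ρ, A u x = A s x * A t x) :
    ∃ s0, ∀ s, ∀ᵐ z, z ∈ ball p.2 ρ → ∀ b,
      Van B (A s) (m s) z (α z b) → Van B (A s0) (m s0) z (α z b) := by
  have hd := od_le R hO hB gB
  choose K hK using fun s => cnt3 R hO hB (hA s).1 hd (m s)
  have ge : ∀ s, ∀ z ∈ ball p.2 ρ, ∀ b,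
      ((m s * (od B z (α z b)).toNat : ℕ) : ℕ∞) ≤ od (A s) z (α z b) := fun s z hz b => by
    obtain ⟨C, hC⟩ := (hA s).2
    obtain ⟨D, -, hD⟩ := up (sl_an hO hB (Roots.mem' R hz b)) (ENat.natCast_toNat_le_self _)
    refine le_ord (sl_an hO (hA s).1 (Roots.mem' R hz b)) (C := |C| * D ^ m s) ?_
    filter_upwards [hD, Roots.nhd R hz b hC] with w h1 h2
    rw [mul_comm (m s), pow_mul, mul_assoc, ← mul_pow]
    exact h2.trans (by gcongr; exacts [le_abs_self C, h1])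
  by_cases bd : BddAbove (range K)
  swap
  · obtain ⟨_, ⟨s, rfl⟩, hs⟩ := not_bddAbove_iff.1 bd d
    refine ⟨s, fun _ => (hK s).mono fun z hz zU => absurd (hz zU ▸ hs) (not_lt.2 ?_)⟩
    exact (Finset.card_le_univ _).trans_eq (Fintype.card_fin d)
  obtain ⟨s0, e0⟩ := Nat.sSup_mem (range_nonempty K) bd
  refine ⟨s0, fun s => ?_⟩
  obtain ⟨u, mu, hu⟩ := mul s0 s
  filter_upwards [hK s0, hK u] with z h0 h1 zU b hb
  have e : ∀ b, od (A u) z (α z b) = od (A s0) z (α z b) + od (A s) z (α z b) := fun b =>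
    (analyticOrderAt_congr (Roots.nhd (P := fun x => A u x = A s0 x * A s x) R zU b hu)).trans
      (analyticOrderAt_mul
      (sl_an hO (hA s0).1 (Roots.mem' R zU b)) (sl_an hO (hA s).1 (Roots.mem' R zU b)))
  have q : (Finset.univ.filter fun b => Van B (A s0) (m s0) z (α z b)) =
      Finset.univ.filter fun b => Van B (A u) (m u) z (α z b) :=
    Finset.eq_of_subset_of_card_le (Finset.monotone_filter_right _ fun b _ hb => by
      rw [Van, e, mu]
      exact le_trans (le_of_eq (by push_cast; ring)) (add_le_add hb (ge s z zU b)))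
      (by rw [h0 zU, h1 zU, e0]; exact le_csSup bd ⟨u, rfl⟩)
  refine (Finset.mem_filter.1 (q.ge (Finset.mem_filter.2 ⟨Finset.mem_univ b, ?_⟩))).2
  rw [Van, e, mu]
  exact le_trans (le_of_eq (by push_cast; ring)) (add_le_add (ge s0 z zU b) hb)

end Pool.Agent.Lib.KV93
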