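import Pool.Agent.Lib.KV93.Val2
import Pool.Agent.Lib.KT.Defs

/-! Removal of the poles on a compact manifold. -/

open scoped Topology ENNReal Real Classical ComplexOrder Matrix
open Set Filter Metric MeasureTheory Complex

noncomputable section

namespace Pool.Agent.Lib.KV93

open Pool.Agent.Lib.SV (E)
open Pool.Agent.Lib.HS32 Pool.Agent.Lib.KH
open Pool.Agent.Lib.KT (Bd)

variable {n : ℕ} {M : Mf n}

/-- Locally the squared modulus of a function that is holomorphic over `O`. -/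
def Lm (S : Set M.Ch) (O : Set M.X) (u : M.X → ℝ) : Prop := ∀ e ∈ S, ∃ (φ : E n → ℂ) (ω : E n → ℝ),
  ContinuousOn ω e.target ∧ ∀ z ∈ e.target, 0 < ω z ∧
    (e.symm z ∈ O → HolN φ z ∧ u (e.symm z) = ω z * normSq (φ z))

/-- The weight `p` dominates the squared modulus of a holomorphic function. -/
def Lp (S : Set M.Ch) (O : Set M.X) (p : M.X → ℝ) : Prop := ∀ x, ∃ e ∈ S, x ∈ e.source ∧
  ∃ (g : E n → ℂ) (C : ℝ), 0 < C ∧ HolN g (e x) ∧ (∃ᶠ z in 𝓝 (e x), g z ≠ 0) ∧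
    ∀ᶠ z in 𝓝 (e x), (g z ≠ 0 → e.symm z ∈ O) ∧ normSq (g z) ≤ C * p (e.symm z)

/-- The product of two members. -/
def ml (a b : (M.X → ℂ) × ℕ) : (M.X → ℂ) × ℕ := (a.1 * b.1, a.2 + b.2)

/-- A multiplicative family of functions of polynomial growth. -/
structure Fm (O : Set M.X) (N : M.X → ℝ) (F : Set ((M.X → ℂ) × ℕ)) : Prop where
  ne : F.Nonempty
  mul : ∀ a ∈ F, ∀ b ∈ F, ml a b ∈ F
  hol : ∀ a ∈ F, HoK M O a.1
  gr : ∀ a ∈ F, ∃ C, ∀ x ∈ O, normSq (a.1 x) ≤ C * N x ^ a.2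
  nz : ∀ a ∈ F, ∀ x ∈ O, ∃ᶠ y in 𝓝 x, a.1 y ≠ 0

/-- The conclusion on the set `W`. -/
def Rm (H : M.Fam (Mat n)) (S : Set M.Ch) (O : Set M.X) (p N : M.X → ℝ) (F : Set ((M.X → ℂ) × ℕ))
    (W : Set M.X) (d : ℕ) (a : (M.X → ℂ) × ℕ) : Prop := ∀ (u : M.X → ℝ) (κ e : ℝ), Lm S O u →
  0 ≤ κ → d * κ ≤ e →
  (∀ θ > (0 : ℝ), ∃ b ∈ F, ∃ C, ∀ x ∈ O, u x * normSq (b.1 x) * p x ^ θ ≤ C * N x ^ b.2) →
  Jo M H O (fun x => u x * p x ^ κ * (N x ^ a.2 / normSq (a.1 x)) ^ e) ≠ ⊤ →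
  ∃ C, ∀ x ∈ W, x ∈ O → u x ≤ C

variable {H : M.Fam (Mat n)} {S : Set M.Ch} {O : Set M.X} {p N : M.X → ℝ} {ι : Type} [Fintype ι]
  {h : ι → M.X → ℂ} {F : Set ((M.X → ℂ) × ℕ)}

theorem bnd {K : Set (E n)} (hK : IsCompact K) {f : E n → ℝ} (hf : ContinuousOn f K)
    (h0 : ∀ z ∈ K, 0 < f z) : ∃ c > (0 : ℝ), ∀ z ∈ K, c ≤ f z ∧ f z ≤ c⁻¹ := by
  obtain ⟨a, a0, ha⟩ := hK.exists_forall_le' hf h0
  obtain ⟨b, b0, hb⟩ := hK.exists_forall_le' (hf.inv₀ fun z hz => (h0 z hz).ne')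
    fun z hz => inv_pos.2 (h0 z hz)
  exact ⟨min a b, lt_min a0 b0, fun z hz => ⟨(min_le_left _ _).trans (ha z hz),
    (le_inv_comm₀ (h0 z hz) (lt_min a0 b0)).2 ((min_le_right _ _).trans (hb z hz))⟩⟩

theorem loc [M.Cpt] (hH : M.Met H) (hS : S ⊆ M.C) (hp : Lp S O p) (hh : ∀ i, HoK M O (h i))
    (hN : ∀ x ∈ O, N x = 1 + ∑ i, normSq (h i x)) (pN : ∃ C, ∀ x ∈ O, p x * N x ≤ C)
    (hF : Fm O N F) (x0 : M.X) :
    ∃ W ∈ 𝓝 x0, ∃ d, ∃ s ∈ F, ∀ t ∈ F, Rm H S O p N F W d (ml s t) := by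
  obtain ⟨e, he, hx, g, G, G0, g1, g2, g3⟩ := hp x0
  obtain ⟨ρ, r0, hρ⟩ := nhds_basis_closedBall.mem_iff.1
    (g1.and (g3.and (e.open_target.mem_nhds (e.map_source hx))))
  have b := fun z (hz : z ∈ ball (e x0) ρ) => hρ (ball_subset_closedBall hz)
  have hol : ∀ {f : M.X → ℂ}, HoK M O f →
      DifferentiableOn ℂ (f ∘ e.symm) (ball (e x0) ρ ∩ {z | g z ≠ 0}) := fun hf z hz =>
    (hf e (hS he) z (b z hz.1).2.2 ((b z hz.1).2.1.1 hz.2)).self_of_nhds.differentiableWithinAt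
  have hg : DifferentiableOn ℂ g (ball (e x0) ρ) := fun z hz => (b z hz).1.differentiableWithinAt
  obtain ⟨V, d, oV, mV, sV, dV, hV⟩ := val2 isOpen_ball (mem_ball_self r0) hg g2
  have N0 : ∀ x ∈ O, 0 < N x := fun x hx => by
    have := Finset.sum_nonneg fun i (_ : i ∈ Finset.univ) => normSq_nonneg (h i x)
    linarith [hN x hx]
  have := hF.ne.to_subtype
  obtain ⟨P, hP⟩ := pN
  obtain ⟨s, hs⟩ := hV ι F (fun i => h i ∘ e.symm) (N ∘ e.symm) (fun a => a.1.1 ∘ e.symm)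
    (fun a => a.1.2) (fun i => hol (hh i)) (fun z hz g0 => hN _ ((b z hz).2.1.1 g0))
    ⟨G * P, fun z hz g0 => (mul_le_mul_of_nonneg_right (b z hz).2.1.2
      (N0 _ ((b z hz).2.1.1 g0)).le).trans (by
        rw [mul_assoc]
        exact mul_le_mul_of_nonneg_left (hP _ ((b z hz).2.1.1 g0)) G0.le)⟩
    (fun a => ⟨hol (hF.hol _ a.2), (hF.gr _ a.2).imp fun C hC z hz g0 => hC _ ((b z hz).2.1.1 g0)⟩)
    fun a c => ⟨⟨_, hF.mul _ a.2 _ c.2⟩, rfl, fun _ _ _ => rfl⟩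
  obtain ⟨δ, d0, hδ⟩ := nhds_basis_closedBall.mem_iff.1 (oV.mem_nhds mV)
  refine ⟨e.source ∩ e ⁻¹' closedBall (e x0) δ, inter_mem (e.open_source.mem_nhds hx)
    (e.continuousAt hx (closedBall_mem_nhds _ d0)), d, s, s.2, fun t ht u κ ε hu k0 k1 gr hi => ?_⟩
  obtain ⟨φ, ω, cω, hω⟩ := hu e he
  have tg : closedBall (e x0) ρ ⊆ e.target := fun z hz => (hρ hz).2.2
  obtain ⟨c, c0, hc⟩ := bnd (isCompact_closedBall _ ρ) (cω.mono tg) fun z hz => (hω z (tg hz)).1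
  obtain ⟨k, k2, hk⟩ := bnd (f := fun z => (H e z).det.re) (isCompact_closedBall (e x0) ρ)
    (fun z hz => (continuous_re.continuousAt.comp (continuous_id.matrix_det.continuousAt.comp
      (hH.sm e (hS he) z (tg hz)).continuousAt)).continuousWithinAt)
    fun z hz => Mf.pd_det_re (hH.pos e (hS he) z (tg hz))
  obtain ⟨a, ha, C, hC⟩ := gr (d + 1 : ℝ)⁻¹ (by positivity)
  have key : ∀ z ∈ V, g z ≠ 0 → ∀ θ ≥ (0 : ℝ), 0 ≤ p (e.symm z) ∧
      normSq (φ z) * normSq (g z) ^ θ ≤ c⁻¹ * G ^ θ * (u (e.symm z) * p (e.symm z) ^ θ) :=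
    fun z hz g0 θ t0 => by
      obtain ⟨-, ⟨l1, l2⟩, l3⟩ := b z (sV hz)
      have p0 := (pos_of_mul_pos_right ((normSq_pos.2 g0).trans_le l2) G0.le).le
      have := normSq_nonneg (φ z)
      have := normSq_nonneg (g z)
      refine ⟨p0, ?_⟩
      rw [((hω z l3).2 (l1 g0)).2, mul_mul_mul_comm, ← Real.mul_rpow G0.le p0, ← mul_assoc]
      have l4 := le_mul_of_one_le_left (normSq_nonneg (φ z))
        ((one_le_inv_mul₀ c0).2 (hc z (ball_subset_closedBall (sV hz))).1)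
      exact mul_le_mul l4 (by gcongr) (by positivity) ((normSq_nonneg _).trans l4)
  have oD : IsOpen (V ∩ {z | g z ≠ 0}) :=
    (hg.continuousOn.mono sV).isOpen_inter_preimage oV (isOpen_compl_singleton (x := 0))
  obtain ⟨z, z1, z2⟩ := (dV _ mV).exists
  have fr := hF.nz _ (hF.mul _ s.2 _ ht) _ ((b z (sV z1)).2.1.1 z2)
  rw [← e.symm.map_nhds_eq (b z (sV z1)).2.2, frequently_map] at fr
  obtain ⟨y, y1, y2⟩ := (fr.and_eventually (oD.mem_nhds ⟨z1, z2⟩)).exists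
  obtain ⟨v, hv, ev⟩ := hs ⟨t, ht⟩ ⟨_, hF.mul _ s.2 _ ht⟩ ⟨a, ha⟩ φ κ ε (d + 1 : ℝ)⁻¹
    (c⁻¹ * G ^ (d + 1 : ℝ)⁻¹ * C) rfl (fun _ _ _ => rfl) ⟨y, y2.1, y2.2, y1⟩ k0 k1 (by positivity)
    (by rw [mul_inv_lt_iff₀ (by positivity)]; linarith)
    (fun z hz => ((hω z (b z hz.1).2.2).2
      ((b z hz.1).2.1.1 hz.2)).1.self_of_nhds.differentiableWithinAt)
    (fun z hz g0 => by
      rw [mul_right_comm, mul_assoc _ C]
      refine (mul_le_mul_of_nonneg_right (key z hz g0 _ (by positivity)).2 (normSq_nonneg _)).trans ?_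
      rw [mul_assoc, mul_right_comm (u _)]
      exact mul_le_mul_of_nonneg_left (hC _ ((b z (sV hz)).2.1.1 g0)) (by positivity))
    (ne_top_of_le_ne_top (ENNReal.mul_ne_top (ENNReal.ofReal_ne_top (r := k⁻¹ * (c⁻¹ * G ^ κ))) hi)
      (by
        refine le_trans ?_ (mul_le_mul_right (lintegral_mono_set (s := e.symm '' (V ∩ {z | g z ≠ 0}))
          (by rintro _ ⟨z, hz, rfl⟩; exact (b z (sV hz.1)).2.1.1 hz.2)) _)
        rw [((mMU n M H hH).2.2.2.2.2.1 e (hS he) _ oD.measurableSet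
          fun z hz => (b z (sV hz.1)).2.2).2.1, ← lintegral_const_mul' _ _ ENNReal.ofReal_ne_top]
        refine setLIntegral_mono' oD.measurableSet fun z hz => ?_
        have k3 := (hk z (ball_subset_closedBall (sV hz.1))).1
        rw [← mul_assoc, ← ENNReal.ofReal_mul (by positivity),
          ← ENNReal.ofReal_mul (mul_nonneg (by positivity) (k2.le.trans k3))]
        refine ENNReal.ofReal_le_ofReal ?_
        rw [← mul_assoc]
        refine mul_le_mul_of_nonneg_right ((key z hz.1 hz.2 κ k0).2.trans ?_) (Real.rpow_nonneg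
          (div_nonneg (pow_nonneg (N0 _ ((b z (sV hz.1)).2.1.1 hz.2)).le _) (normSq_nonneg _)) _)
        obtain ⟨w0, hw⟩ := hω z (b z (sV hz.1)).2.2
        have := (key z hz.1 hz.2 κ k0).1
        have : 0 ≤ u (e.symm z) := (hw ((b z (sV hz.1)).2.1.1 hz.2)).2 ▸
          mul_nonneg w0.le (normSq_nonneg _)
        rw [mul_right_comm k⁻¹, mul_assoc (_ * _)]
        exact le_mul_of_one_le_left (by positivity) ((one_le_inv_mul₀ k2).2 k3)))
  obtain ⟨D, hD⟩ := (isCompact_closedBall _ δ).exists_bound_of_continuousOn (hv.continuousOn.mono hδ)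
  refine ⟨c⁻¹ * D ^ 2, fun x hx xO => ?_⟩
  have zV := hδ hx.2
  obtain ⟨w0, hw⟩ := hω _ (e.map_source hx.1)
  rw [e.left_inv hx.1] at hw
  have e1 : v (e x) = φ (e x) := tendsto_nhds_unique_of_frequently_eq
    (hv.continuousOn.continuousAt (oV.mem_nhds zV)) (hw xO).1.self_of_nhds.continuousAt
    ((dV _ zV).mono fun y hy => ev y hy.1 hy.2)
  rw [(hw xO).2, ← e1, ← Complex.sq_norm]
  gcongr
  exacts [(hc _ (ball_subset_closedBall (sV zV))).2, hD _ hx.2]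

/-- Removal of the poles. -/
theorem valM [M.Cpt] (hH : M.Met H) (hS : S ⊆ M.C) (hp : Lp S O p) (hh : ∀ i, HoK M O (h i))
    (hN : ∀ x ∈ O, N x = 1 + ∑ i, normSq (h i x)) (pN : ∃ C, ∀ x ∈ O, p x * N x ≤ C)
    (hF : Fm O N F) : ∃ d, ∃ a ∈ F, Rm H S O p N F univ d a := by
  obtain ⟨d, s, hs, h⟩ := (isCompact_univ (X := M.X)).induction_on
    (p := fun W => ∃ d, ∃ s ∈ F, ∀ t ∈ F, Rm H S O p N F W d (ml s t))
    ⟨0, _, hF.ne.some_mem, fun _ _ _ _ _ _ _ _ _ _ => ⟨0, fun _ h => h.elim⟩⟩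
    (fun _ _ e ⟨d, s, hs, h⟩ => ⟨d, s, hs, fun t ht u κ ε a b c f g =>
      (h t ht u κ ε a b c f g).imp fun _ k x hx => k x (e hx)⟩)
    (fun _ _ ⟨d, s, hs, h⟩ ⟨d', s', hs', h'⟩ => ⟨max d d', _, hF.mul s hs s' hs',
      fun t ht u κ ε a b c f g => by
        obtain ⟨C, hC⟩ := h _ (hF.mul s' hs' t ht) u κ ε a b
          (le_trans (by gcongr; exact le_max_left _ _) c) f (by simpa [ml, mul_assoc, add_assoc] using g)
        obtain ⟨C', hC'⟩ := h' _ (hF.mul s hs t ht) u κ ε a b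
          (le_trans (by gcongr; exact le_max_right _ _) c) f
          (by simpa [ml, mul_assoc, add_assoc, mul_left_comm, add_left_comm] using g)
        exact ⟨max C C', fun x hx xO => hx.elim (fun k => le_max_of_le_left (hC x k xO))
          fun k => le_max_of_le_right (hC' x k xO)⟩⟩)
    fun x _ => (loc hH hS hp hh hN pN hF x).imp fun W hW => ⟨mem_nhdsWithin_of_mem_nhds hW.1, hW.2⟩
  exact ⟨d, _, hF.mul s hs s hs, h s hs⟩

end Pool.Agent.Lib.KV93
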