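import Pool.Agent.Lib.SV.Sub85

/-! Orders of vanishing and removable singularities in one variable. -/

open scoped Topology ENNReal Real
open Set Filter Metric MeasureTheory Complex

noncomputable section

namespace Pool.Agent.Lib.KV93

variable {W : Type} [NormedAddCommGroup W] [NormedSpace ℂ W] {f : ℂ → W} {ζ : ℂ} {j : ℕ}

theorem up (hf : AnalyticAt ℂ f ζ) (h : (j : ℕ∞) ≤ analyticOrderAt f ζ) :
    ∃ C > (0 : ℝ), ∀ᶠ w in 𝓝 ζ, ‖f w‖ ≤ C * ‖w - ζ‖ ^ j := by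
  obtain ⟨g, hg, e⟩ := (natCast_le_analyticOrderAt hf).1 h
  refine ⟨‖g ζ‖ + 1, by positivity, ?_⟩
  filter_upwards [e, hg.continuousAt.norm.eventually_lt_const (lt_add_one _)] with w h1 h2
  rw [h1, norm_smul, norm_pow, mul_comm]
  gcongr

theorem near1 (ζ : ℂ) : ∀ᶠ w in 𝓝 ζ, ‖w - ζ‖ < 1 := by
  filter_upwards [ball_mem_nhds ζ one_pos] with w hw using mem_ball_iff_norm.1 hw

theorem lo (hf : AnalyticAt ℂ f ζ) (h : analyticOrderAt f ζ ≤ j) :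
    ∃ c > (0 : ℝ), ∀ᶠ w in 𝓝 ζ, c * ‖w - ζ‖ ^ j ≤ ‖f w‖ := by
  obtain ⟨i, hi⟩ := ENat.ne_top_iff_exists.1 (ne_top_of_le_ne_top (ENat.natCast_ne_top j) h)
  obtain ⟨g, hg, g0, e⟩ := hf.analyticOrderAt_eq_natCast.1 hi.symm
  have ij : i ≤ j := by rw [← hi] at h; exact_mod_cast h
  have p := norm_pos_iff.2 g0
  refine ⟨‖g ζ‖ / 2, half_pos p, ?_⟩
  filter_upwards [e, hg.continuousAt.norm.eventually_const_lt (half_lt_self p), near1 ζ]
    with w h1 h2 h3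
  rw [h1, norm_smul, norm_pow, mul_comm]
  exact mul_le_mul (pow_le_pow_of_le_one (norm_nonneg _) h3.le ij) h2.le (half_pos p).le
    (by positivity)

theorem nrm0 (ζ : ℂ) : Tendsto (fun w => ‖w - ζ‖) (𝓝[≠] ζ) (𝓝 0) :=
  (tendsto_norm_sub_self ζ).mono_left nhdsWithin_le_nhds

theorem nrp (ζ : ℂ) : ∀ᶠ w in 𝓝[≠] ζ, 0 < ‖w - ζ‖ :=
  eventually_mem_nhdsWithin.mono fun _ hw => norm_pos_iff.2 (sub_ne_zero.2 hw)

theorem cmp {c C : ℝ} {a b : ℕ} (c0 : 0 < c)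
    (h : ∀ᶠ w in 𝓝 ζ, c * ‖w - ζ‖ ^ a ≤ C * ‖w - ζ‖ ^ b) : b ≤ a := by
  by_contra hc
  obtain ⟨k, rfl⟩ : ∃ k, b = a + (k + 1) := ⟨b - a - 1, by omega⟩
  have t : Tendsto (fun w => C * ‖w - ζ‖ ^ (k + 1)) (𝓝[≠] ζ) (𝓝 0) := by
    simpa using ((nrm0 ζ).pow (k + 1)).const_mul C
  refine (ge_of_tendsto t ?_).not_gt c0
  filter_upwards [h.filter_mono nhdsWithin_le_nhds, nrp ζ] with w h1 h2
  rw [pow_add, mul_left_comm, mul_comm c] at h1
  exact le_of_mul_le_mul_left h1 (pow_pos h2 a)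

theorem ord_le (hf : AnalyticAt ℂ f ζ) {c : ℝ} (c0 : 0 < c)
    (h : ∀ᶠ w in 𝓝 ζ, c * ‖w - ζ‖ ^ j ≤ ‖f w‖) : analyticOrderAt f ζ ≤ j := by
  by_contra hc
  obtain ⟨C, -, hC⟩ := up (j := j + 1) hf (by
    push_cast; exact Order.add_one_le_of_lt (not_le.1 hc))
  exact (cmp c0 ((h.and hC).mono fun w hw => hw.1.trans hw.2)).not_gt (lt_add_one j)

theorem le_ord (hf : AnalyticAt ℂ f ζ) {C : ℝ}
    (h : ∀ᶠ w in 𝓝 ζ, ‖f w‖ ≤ C * ‖w - ζ‖ ^ j) : (j : ℕ∞) ≤ analyticOrderAt f ζ := by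
  induction e : analyticOrderAt f ζ with
  | top => exact le_top
  | coe i =>
    obtain ⟨c, c0, hc⟩ := lo hf e.le
    exact_mod_cast cmp c0 ((hc.and h).mono fun w hw => hw.1.trans hw.2)

/-- Square integrable functions have no pole. -/
theorem l2 {φ : ℂ → ℂ} {S : Set ℂ} (hS : S ∈ 𝓝[≠] ζ) (hd : ∀ w ∈ S, DifferentiableAt ℂ φ w)
    (hi : ∫⁻ w in S, ENNReal.ofReal (‖φ w‖ ^ 2) ≠ ⊤) :
    Tendsto (fun w => ‖w - ζ‖ * ‖φ w‖) (𝓝[≠] ζ) (𝓝 0) := by
  obtain ⟨δ, d0, hδ⟩ := Metric.mem_nhdsWithin_iff.1 hS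
  have v : Tendsto (fun w => volume (ball w ‖w - ζ‖)) (𝓝[≠] ζ) (𝓝 0) := by
    simp only [Complex.volume_ball]
    simpa using ENNReal.Tendsto.mul_const (b := NNReal.pi) (ENNReal.Tendsto.pow (n := 2)
      (ENNReal.tendsto_ofReal (nrm0 ζ))) (Or.inr ENNReal.coe_ne_top)
  have t := tendsto_setLIntegral_zero hi (s := fun w => ball w ‖w - ζ‖)
    (tendsto_of_tendsto_of_tendsto_of_le_of_le tendsto_const_nhds v (fun _ => zero_le)
      fun _ => Measure.restrict_apply_le _ _)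
  have u : Tendsto (fun w => ENNReal.ofReal ((‖w - ζ‖ * ‖φ w‖) ^ 2 * π)) (𝓝[≠] ζ) (𝓝 0) := by
    refine tendsto_of_tendsto_of_tendsto_of_le_of_le' tendsto_const_nhds t
      (Eventually.of_forall fun _ => zero_le) ?_
    filter_upwards [(nrm0 ζ).eventually_lt_const (half_pos d0)] with w hw
    have sb : ball w ‖w - ζ‖ ⊆ S := fun y hy => hδ ⟨by
      rw [mem_ball_iff_norm] at hy ⊢
      linarith [norm_sub_le_norm_sub_add_norm_sub y w ζ], by
      rintro rfl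
      simp [dist_eq_norm, norm_sub_rev] at hy⟩
    have := SV.H85.sub_mean volume (e := 2) two_pos
      fun y hy => (hd y (sb hy)).differentiableWithinAt
    simp only [Real.rpow_two] at this
    rw [Measure.restrict_restrict measurableSet_ball, inter_eq_left.2 sb]
    refine le_trans (le_of_eq ?_) this
    rw [Complex.volume_ball, ← ENNReal.ofReal_pow (norm_nonneg _), ← ENNReal.ofReal_coe_nnreal,
      ← ENNReal.ofReal_mul (by positivity), ← ENNReal.ofReal_mul (by positivity), NNReal.coe_real_pi]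
    ring_nf
  have u2 := (ENNReal.tendsto_toReal ENNReal.zero_ne_top).comp u
  have u3 := (u2.div_const π).sqrt
  simp only [ENNReal.toReal_zero, zero_div, Real.sqrt_zero] at u3
  refine u3.congr fun w => ?_
  rw [Function.comp, ENNReal.toReal_ofReal (by positivity), mul_div_cancel_right₀ _ Real.pi_ne_zero,
    Real.sqrt_sq (by positivity)]

/-- The formula of Cauchy with finitely many removable singularities. -/
theorem cauchy {φ : ℂ → ℂ} {D S : Set ℂ} {a w : ℂ} {r : ℝ} (hD : IsOpen D) (hS : S.Finite)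
    (hd : DifferentiableOn ℂ φ D) (h1 : closedBall a r ⊆ D ∪ S) (h2 : S ⊆ ball a r)
    (h3 : ∀ ζ ∈ S, Tendsto (fun w => ‖w - ζ‖ * ‖φ w‖) (𝓝[≠] ζ) (𝓝 0)) (hw : w ∈ ball a r)
    (wD : w ∈ D) : (∮ ξ in C(a, r), (ξ - w)⁻¹ * φ ξ) = 2 * π * I * φ w := by
  set ψ := fun y => limUnder (𝓝[≠] y) φ
  have e : ∀ y ∈ D, ψ y = φ y := fun y hy =>
    ((hd.continuousOn.continuousAt (hD.mem_nhds hy)).tendsto.mono_left
      nhdsWithin_le_nhds).limUnder_eq
  have dψ : DifferentiableOn ℂ ψ (closedBall a r) := fun y hy => by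
    refine DifferentiableAt.differentiableWithinAt ?_
    by_cases yD : y ∈ D
    · exact (hd.differentiableAt (hD.mem_nhds yD)).congr_of_eventuallyEq
        (eventually_of_mem (hD.mem_nhds yD) e)
    have yS := (h1 hy).resolve_left yD
    have m : insert y D ∈ 𝓝 y := by
      filter_upwards [isOpen_ball.mem_nhds (h2 yS),
        (hS.subset (sdiff_subset (t := {y}))).isClosed.isOpen_compl.mem_nhds (by simp)] with x x1 x2
      by_cases xy : x = y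
      · exact Or.inl xy
      · exact Or.inr ((h1 (ball_subset_closedBall x1)).resolve_right fun h => x2 ⟨h, xy⟩)
    have o : (fun z => φ z - φ y) =o[𝓝[≠] y] fun z => (z - y)⁻¹ := by
      refine (Asymptotics.isLittleO_iff_tendsto' ((nrp y).mono fun z hz h =>
        absurd h (inv_ne_zero (norm_pos_iff.1 hz)))).2 (tendsto_zero_iff_norm_tendsto_zero.2 ?_)
      refine squeeze_zero (fun _ => norm_nonneg _) (fun z => ?_)
        (by simpa using (h3 y yS).add ((nrm0 y).mul_const ‖φ y‖))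
      rw [div_inv_eq_mul, norm_mul, mul_comm, ← mul_add]
      gcongr
      exact norm_sub_le _ _
    refine ((differentiableOn_update_limUnder_insert_of_isLittleO (insert_mem_nhds_iff.1 m) hd
      o).differentiableAt m).congr_of_eventuallyEq ?_
    filter_upwards [m] with x hx
    by_cases xy : x = y
    · rw [xy, Function.update_self]
    · rw [Function.update_of_ne xy, e x (hx.resolve_left xy)]
  have r0 := (pos_of_mem_ball hw).le
  rw [← e w wD, ← smul_eq_mul, ← dψ.circleIntegral_sub_inv_smul hw]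
  refine circleIntegral.integral_congr r0 fun ξ hξ => ?_
  rw [smul_eq_mul, e ξ ((h1 (sphere_subset_closedBall hξ)).resolve_right fun h =>
    (mem_ball.1 (h2 h)).ne hξ)]

theorem low {d : ℕ} {α : Fin d → ℂ} {g : ℂ → ℂ} {a : ℂ} {c r : ℝ} (c0 : 0 < c)
    (h : ∀ w ∈ closedBall a r, c * ∏ b, ‖w - α b‖ ≤ ‖g w‖) (hζ : ζ ∈ ball a r) :
    ∀ᶠ w in 𝓝 ζ, c * ‖w - ζ‖ ^ d ≤ ‖g w‖ := by
  have e : ∀ b, ∀ᶠ w in 𝓝 ζ, ‖w - ζ‖ ≤ ‖w - α b‖ := fun b => by
    rcases eq_or_ne ζ (α b) with e | e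
    · exact Eventually.of_forall fun w => by rw [e]
    · exact (ContinuousAt.eventually_lt (f := fun w => ‖w - ζ‖) (g := fun w => ‖w - α b‖)
        (by fun_prop) (by fun_prop) (by simpa using sub_ne_zero.2 e)).mono fun _ => le_of_lt
  filter_upwards [eventually_all.2 e, isOpen_ball.mem_nhds hζ] with w h1 h2
  refine le_trans ?_ (h w (ball_subset_closedBall h2))
  have := Finset.prod_le_prod (s := Finset.univ) (fun _ _ => norm_nonneg _) fun b _ => h1 b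
  rw [Finset.prod_const, Finset.card_univ, Fintype.card_fin] at this
  gcongr

variable {A g φ Q : ℂ → ℂ} {c C θ κ e : ℝ} {d m q : ℕ}

/-- The case of slow growth. -/
theorem casb (hf : AnalyticAt ℂ f ζ) (hA : AnalyticAt ℂ A ζ) (h1 : (j : ℕ∞) ≤ analyticOrderAt f ζ)
    (h2 : analyticOrderAt A ζ ≤ (m * j : ℕ)) (c0 : 0 < c)
    (hg : ∀ᶠ w in 𝓝 ζ, c * ‖w - ζ‖ ^ d ≤ ‖g w‖) (t0 : 0 ≤ θ) (t1 : d * θ < 1)
    (h : ∀ᶠ w in 𝓝[≠] ζ, ‖φ w‖ * ‖A w‖ * ‖g w‖ ^ θ ≤ C * ‖f w‖ ^ m) :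
    Tendsto (fun w => ‖w - ζ‖ * ‖φ w‖) (𝓝[≠] ζ) (𝓝 0) := by
  obtain ⟨b, b0, hb⟩ := up hf h1
  obtain ⟨a, a0, ha⟩ := lo hA h2
  have t : Tendsto (fun w => |C| * b ^ m / (a * c ^ θ) * ‖w - ζ‖ ^ (1 - d * θ)) (𝓝[≠] ζ) (𝓝 0) := by
    have := ((nrm0 ζ).rpow_const (p := 1 - d * θ) (Or.inr (by linarith))).const_mul
      (|C| * b ^ m / (a * c ^ θ))
    rwa [Real.zero_rpow (by linarith), mul_zero] at this
  refine squeeze_zero' (Eventually.of_forall fun w => by positivity) ?_ t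
  filter_upwards [h, nrp ζ, (hb.and (ha.and hg)).filter_mono nhdsWithin_le_nhds]
    with w k x0 ⟨k1, k2, k3⟩
  set x := ‖w - ζ‖
  have k4 : ‖φ w‖ * (a * x ^ (m * j)) * (c * x ^ d) ^ θ ≤ |C| * (b * x ^ j) ^ m :=
    le_trans (by gcongr) (k.trans (by gcongr; exact le_abs_self C))
  rw [Real.mul_rpow c0.le (by positivity), ← Real.rpow_natCast_mul x0.le, mul_pow, ← pow_mul,
    mul_comm j] at k4
  rw [Real.rpow_sub x0, Real.rpow_one, div_mul_div_comm, le_div_iff₀ (by positivity)]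
  refine le_of_mul_le_mul_right ?_ (pow_pos x0 (m * j))
  exact (le_of_eq (by ring)).trans ((mul_le_mul_of_nonneg_left k4 x0.le).trans_eq (by ring))

/-- The case of a large weight. -/
theorem casa (hf : AnalyticAt ℂ f ζ) (hA : AnalyticAt ℂ A ζ) (h1 : analyticOrderAt f ζ ≤ j)
    (h2 : ((m * j + 1 : ℕ) : ℕ∞) ≤ analyticOrderAt A ζ) (c0 : 0 < c)
    (hg : ∀ᶠ w in 𝓝 ζ, c * ‖w - ζ‖ ^ d ≤ ‖g w‖) (k0 : 0 ≤ κ) (k1 : d * κ ≤ e)
    (hQ : ∀ᶠ w in 𝓝[≠] ζ, Q w ≠ 0)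
    (h : ∀ᶠ w in 𝓝 ζ, ‖Q w‖ * ‖f w‖ ^ m ≤ C * ‖A w‖ * ‖f w‖ ^ q) :
    ∃ k > (0 : ℝ), ∀ᶠ w in 𝓝[≠] ζ, k ≤ ‖g w‖ ^ (2 * κ) * (‖f w‖ ^ q / ‖Q w‖) ^ (2 * e) := by
  obtain ⟨b, b0, hb⟩ := lo hf h1
  obtain ⟨a, a0, ha⟩ := up hA h2
  have e0 : 0 ≤ e := le_trans (by positivity) k1
  set K := b ^ m / ((|C| + 1) * a)
  refine ⟨c ^ (2 * κ) * K ^ (2 * e), by positivity, ?_⟩
  filter_upwards [hQ, nrp ζ, (hb.and (ha.and (hg.and (h.and (near1 ζ))))).filter_mono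
    nhdsWithin_le_nhds] with w q0 x0 ⟨l1, l2, l3, l4, x1⟩
  set x := ‖w - ζ‖
  have q1 := norm_pos_iff.2 q0
  have l5 : ‖Q w‖ * (b * x ^ j) ^ m ≤ (|C| + 1) * (a * x ^ (m * j + 1)) * ‖f w‖ ^ q :=
    le_trans (by gcongr) (l4.trans (by gcongr; linarith [le_abs_self C]))
  have l6 : K / x ≤ ‖f w‖ ^ q / ‖Q w‖ := by
    rw [div_div, div_le_div_iff₀ (by positivity) q1]
    refine le_of_mul_le_mul_right ?_ (pow_pos x0 (m * j))
    exact (le_of_eq (by ring)).trans (l5.trans_eq (by ring))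
  refine le_trans ?_ (show (c * x ^ d) ^ (2 * κ) * (K / x) ^ (2 * e) ≤ _ by gcongr)
  rw [Real.mul_rpow c0.le (by positivity), ← Real.rpow_natCast_mul x0.le,
    Real.div_rpow (by positivity) x0.le, mul_assoc, mul_div_left_comm, ← Real.rpow_sub x0]
  have := Real.one_le_rpow_of_pos_of_le_one_of_nonpos x0 x1.le
    (show d * (2 * κ) - 2 * e ≤ 0 by linarith)
  gcongr
  exact le_mul_of_one_le_right (by positivity) this

end Pool.Agent.Lib.KV93
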