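import Pool.Agent.Lib.KV93.Cnt

/-! Removal of the poles along a hypersurface by counting roots on slices. -/

open scoped Topology ENNReal Real Classical
open Set Filter Metric MeasureTheory Complex

noncomputable section

namespace Pool.Agent.Lib.KV93

open Pool.Agent.Lib.SV Pool.Agent.Lib.LJ84

section
variable {k d : ℕ} {g φ : ℂ × E k → ℂ} {O : Set (ℂ × E k)} {p : ℂ × E k} {r c ρ : ℝ}
  {α : E k → Fin d → ℂ}

theorem Roots.nz (R : Roots g O p r c (ball p.2 ρ) α) {z : E k} (hz : z ∈ ball p.2 ρ) {w : ℂ}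
    (hw : w ∈ closedBall p.1 r) (h : w ∉ range (α z)) : g (w, z) ≠ 0 :=
  norm_pos_iff.1 ((mul_pos R.c0 (Finset.prod_pos fun b _ => norm_pos_iff.2
    (sub_ne_zero.2 fun e => h ⟨b, e.symm⟩))).trans_le (R.low z hz w hw))

theorem ext (R : Roots g O p r c (ball p.2 ρ) α) (hO : IsOpen O) (hg : DifferentiableOn ℂ g O)
    (hφ : DifferentiableOn ℂ φ (O ∩ {x | g x ≠ 0}))
    (h : ∀ᵐ z, z ∈ ball p.2 ρ → ∀ b,
      Tendsto (fun w => ‖w - α z b‖ * ‖φ (w, z)‖) (𝓝[≠] α z b) (𝓝 0)) :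
    ∃ u, DifferentiableOn ℂ u (ball p.1 r ×ˢ ball p.2 ρ) ∧
      ∀ x ∈ ball p.1 r ×ˢ ball p.2 ρ, g x ≠ 0 → u x = φ x := by
  have oD : IsOpen (O ∩ {x | g x ≠ 0}) :=
    hg.continuousOn.isOpen_inter_preimage hO isOpen_compl_singleton
  have oV : IsOpen (ball p.1 r ×ˢ ball p.2 ρ) := isOpen_ball.prod isOpen_ball
  have c1 : Continuous fun y : ℂ × ℂ × E k => (y.1, y.2.2) := by fun_prop
  have du := (bPAR (ℂ × E k) (fun y => (y.1 - y.2.1)⁻¹ * φ (y.1, y.2.2))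
    ({y | (y.1, y.2.2) ∈ O ∩ {x | g x ≠ 0}} ∩ {y | y.1 ≠ y.2.1}) _ p.1 r
    ((oD.preimage c1).inter (isOpen_ne_fun (by fun_prop) (by fun_prop))) oV R.r0
    (fun y hy => ⟨⟨R.sub ⟨sphere_subset_closedBall hy.1, hy.2.2⟩, Roots.nz R hy.2.2
      (sphere_subset_closedBall hy.1) fun ⟨b, hb⟩ =>
        (mem_ball.1 (R.root _ hy.2.2 b).1).ne (hb ▸ hy.1)⟩,
      fun e => (mem_ball.1 hy.2.1).ne (e ▸ hy.1)⟩)
    ((DifferentiableOn.inv (by fun_prop) fun y hy => sub_ne_zero.2 hy.2).mul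
      (hφ.comp (f := fun y : ℂ × ℂ × E k => (y.1, y.2.2)) (by fun_prop)
        fun y hy => hy.1))).const_mul (2 * π * I)⁻¹
  refine ⟨_, du, fun x hx g0 => ?_⟩
  have xD : x ∈ O ∩ {x | g x ≠ 0} := ⟨R.sub ⟨ball_subset_closedBall hx.1, hx.2⟩, g0⟩
  have t : Tendsto (fun z => (x.1, z)) (𝓝 x.2) (𝓝 x) :=
    (continuous_const.prodMk continuous_id).continuousAt
  refine tendsto_nhds_unique_of_frequently_eq
    ((du.continuousOn.continuousAt (oV.mem_nhds hx)).tendsto.comp t)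
    ((hφ.continuousOn.continuousAt (oD.mem_nhds xD)).tendsto.comp t)
    (((mem_closure_iff_frequently.1 (Measure.dense_of_ae h x.2)).and_eventually
      ((t.eventually (oD.mem_nhds xD)).and (isOpen_ball.mem_nhds hx.2))).mono
        fun z ⟨h1, h2, h3⟩ => ?_)
  have := cauchy (φ := fun w => φ (w, z)) (sl_open oD z) (finite_range (α z)) (sl_hol hφ z)
    (fun w hw => (em (w ∈ range (α z))).symm.imp_left fun e => ⟨R.sub ⟨hw, h3⟩, Roots.nz R h3 hw e⟩)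
    (range_subset_iff.2 fun b => (R.root z h3 b).1) (forall_mem_range.2 (h1 h3)) hx.1 h2
  simp only [Function.comp]
  rw [this, inv_mul_cancel_left₀ two_pi_I_ne_zero]

theorem core (R : Roots g O p r c (ball p.2 ρ) α) (hO : IsOpen O) (hg : DifferentiableOn ℂ g O)
    {ι : Type} [Fintype ι] {B : ℂ × E k → ι → ℂ} {A A0 Q : ℂ × E k → ℂ} {m m0 q : ℕ}
    {κ e θ C : ℝ} (hB : DifferentiableOn ℂ B O) (hA : DifferentiableOn ℂ A O)
    (hA0 : DifferentiableOn ℂ A0 O) (hQ : DifferentiableOn ℂ Q O)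
    (gB : ∀ x ∈ ball p.1 r ×ˢ ball p.2 ρ, ‖g x‖ ≤ ‖B x‖)
    (hv : ∀ᵐ z, z ∈ ball p.2 ρ → ∀ b, Van B A m z (α z b) → Van B A0 m0 z (α z b))
    (q0 : ∃ x ∈ ball p.1 r ×ˢ ball p.2 ρ, Q x ≠ 0)
    (q1 : ∀ x ∈ ball p.1 r ×ˢ ball p.2 ρ, ‖Q x‖ * ‖B x‖ ^ m0 ≤ C * ‖A0 x‖ * ‖B x‖ ^ q)
    (k0 : 0 ≤ κ) (k1 : d * κ ≤ e) (t0 : 0 ≤ θ) (t1 : d * θ < 1)
    (hφ : DifferentiableOn ℂ φ (O ∩ {x | g x ≠ 0}))
    (hb : ∀ x ∈ ball p.1 r ×ˢ ball p.2 ρ, g x ≠ 0 → ‖φ x‖ * ‖A x‖ * ‖g x‖ ^ θ ≤ C * ‖B x‖ ^ m)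
    (hi : ∫⁻ x in ball p.1 r ×ˢ ball p.2 ρ ∩ {x | g x ≠ 0},
      ENNReal.ofReal (‖φ x‖ ^ 2 * ‖g x‖ ^ (2 * κ) * (‖B x‖ ^ q / ‖Q x‖) ^ (2 * e)) ≠ ⊤) :
    ∃ u, DifferentiableOn ℂ u (ball p.1 r ×ˢ ball p.2 ρ) ∧
      ∀ x ∈ ball p.1 r ×ˢ ball p.2 ρ, g x ≠ 0 → u x = φ x := by
  have VO : ball p.1 r ×ˢ ball p.2 ρ ⊆ O := (prod_mono_left ball_subset_closedBall).trans R.sub
  have oD : IsOpen (O ∩ {x | g x ≠ 0}) :=
    hg.continuousOn.isOpen_inter_preimage hO isOpen_compl_singleton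
  set S := ball p.1 r ×ˢ ball p.2 ρ ∩ {x | g x ≠ 0}
  have mS : MeasurableSet S := ((hg.continuousOn.mono VO).isOpen_inter_preimage
    (isOpen_ball.prod isOpen_ball) isOpen_compl_singleton).measurableSet
  set f := fun x => ENNReal.ofReal (‖φ x‖ ^ 2 * ‖g x‖ ^ (2 * κ) * (‖B x‖ ^ q / ‖Q x‖) ^ (2 * e))
  have mf : AEMeasurable (S.indicator f) (volume.prod volume) := by
    have SO : S ⊆ O := inter_subset_left.trans VO
    have a1 := (hφ.continuousOn.mono (inter_subset_inter_left _ VO)).aemeasurable (μ := volume) mS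
    have a2 := (hg.continuousOn.mono SO).aemeasurable (μ := volume) mS
    have a3 := (hB.continuousOn.mono SO).norm.aemeasurable (μ := volume) mS
    have a4 := (hQ.continuousOn.mono SO).aemeasurable (μ := volume) mS
    exact (aemeasurable_indicator_iff mS).2 ((((a1.norm.pow_const 2).mul (a2.norm.pow_const _)).mul
      (((a3.pow_const q).div a4.norm).pow_const _)).ennreal_ofReal)
  rw [← lintegral_indicator mS, Measure.volume_eq_prod, lintegral_prod_symm _ mf] at hi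
  obtain ⟨x, hx, x0⟩ := q0
  refine ext R hO hg hφ ?_
  filter_upwards [hv, ae_lt_top' mf.lintegral_prod_left' hi, aene (f := fun z => Q (x.1, z))
    (hQ.comp (by fun_prop) fun z hz => VO ⟨hx.1, hz⟩) ⟨x.2, hx.2, x0⟩] with z h1 h2 h3 zU b
  have aB := sl_an hO hB (Roots.mem' R zU b)
  have lg := low R.c0 (R.low z zU) (R.root z zU b).1
  have g0 : ∀ᶠ w in 𝓝[≠] α z b, g (w, z) ≠ 0 := by
    filter_upwards [lg.filter_mono nhdsWithin_le_nhds, nrp (α z b)] with w l1 l2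
    exact norm_pos_iff.1 ((mul_pos R.c0 (pow_pos l2 d)).trans_le l1)
  by_cases hV : Van B A m z (α z b)
  swap
  · refine casb aB (sl_an hO hA (Roots.mem' R zU b)) (ENat.natCast_toNat_le_self _)
      (Order.le_of_lt_add_one (by exact_mod_cast not_le.1 hV)) R.c0 lg t0 t1 (C := C) ?_
    filter_upwards [g0, (Roots.nhd R zU b hb).filter_mono nhdsWithin_le_nhds] with w l1 l2
    exact l2 l1
  have aQ : AnalyticOnNhd ℂ (fun w => Q (w, z)) (ball p.1 r) := fun w hw => sl_an hO hQ (VO ⟨hw, zU⟩)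
  obtain ⟨K, K0, hK⟩ := casa aB (sl_an hO hA0 (Roots.mem' R zU b)) (ENat.natCast_toNat
    (ne_top_of_le_ne_top (ENat.natCast_ne_top d) (od_le R hO hB gB z zU b))).ge (h1 zU b hV) R.c0 lg
    k0 k1 ((aQ _ (R.root z zU b).1).eventually_eq_zero_or_eventually_ne_zero.resolve_left fun h =>
      h3 zU (aQ.eqOn_zero_of_preconnected_of_eventuallyEq_zero (convex_ball _ _).isPreconnected
        (R.root z zU b).1 h hx.1)) (Roots.nhd R zU b q1)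
  obtain ⟨t, ot, mt, ht⟩ := mem_nhdsWithin.1 (hK.and (g0.and
    ((Roots.nhd R zU b fun _ h => h).filter_mono nhdsWithin_le_nhds)))
  refine l2 (inter_mem_nhdsWithin _ (ot.mem_nhds mt)) (fun w hw => (sl_hol hφ z).differentiableAt
    ((sl_open oD z).mem_nhds ⟨VO (ht hw.symm).2.2, (ht hw.symm).2.1⟩)) (ne_top_of_le_ne_top
      (ENNReal.mul_ne_top (ENNReal.ofReal_ne_top (r := K⁻¹)) h2.ne) ?_)
  rw [← lintegral_const_mul' _ _ ENNReal.ofReal_ne_top]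
  refine (setLIntegral_mono' (isOpen_compl_singleton.inter ot).measurableSet fun w hw => ?_).trans
    (setLIntegral_le_lintegral _ _)
  obtain ⟨l1, l2, l3⟩ := ht hw.symm
  rw [indicator_of_mem (show (w, z) ∈ S from ⟨l3, l2⟩), ← ENNReal.ofReal_mul (by positivity),
    mul_assoc]
  exact ENNReal.ofReal_le_ofReal ((le_inv_mul_iff₀ K0).2 (by rw [mul_comm]; gcongr))

end

/-- Removal of the poles. -/
theorem val {n : ℕ} {O : Set (E n)} {x0 : E n} {g : E n → ℂ} (hO : IsOpen O) (h0 : x0 ∈ O)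
    (hg : DifferentiableOn ℂ g O) (g0 : ∃ᶠ x in 𝓝 x0, g x ≠ 0) :
    ∃ (V : Set (E n)) (d : ℕ), IsOpen V ∧ x0 ∈ V ∧ V ⊆ O ∧ Convex ℝ V ∧
      ∀ (ι σ : Type) [Fintype ι] [Nonempty σ] (B : E n → ι → ℂ) (A : σ → E n → ℂ) (m : σ → ℕ),
      DifferentiableOn ℂ B O → (∀ x ∈ V, ‖g x‖ ≤ ‖B x‖) →
      (∀ a, DifferentiableOn ℂ (A a) O ∧ ∃ C, ∀ x ∈ V, ‖A a x‖ ≤ C * ‖B x‖ ^ m a) →
      (∀ a b, ∃ u, m u = m a + m b ∧ ∀ x ∈ V, A u x = A a x * A b x) →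
      ∃ a0, ∀ (Q φ : E n → ℂ) (q : ℕ) (a : σ) (κ e θ C : ℝ), DifferentiableOn ℂ Q O →
        (∃ x ∈ V, Q x ≠ 0) → (∀ x ∈ V, ‖Q x‖ * ‖B x‖ ^ m a0 ≤ C * ‖A a0 x‖ * ‖B x‖ ^ q) →
        0 ≤ κ → d * κ ≤ e → 0 ≤ θ → d * θ < 1 → DifferentiableOn ℂ φ (O ∩ {x | g x ≠ 0}) →
        (∀ x ∈ V, g x ≠ 0 → ‖φ x‖ * ‖A a x‖ * ‖g x‖ ^ θ ≤ C * ‖B x‖ ^ m a) →
        ∫⁻ x in V ∩ {x | g x ≠ 0},
          ENNReal.ofReal (‖φ x‖ ^ 2 * ‖g x‖ ^ (2 * κ) * (‖B x‖ ^ q / ‖Q x‖) ^ (2 * e)) ≠ ⊤ →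
        ∃ u, DifferentiableOn ℂ u V ∧ ∀ x ∈ V, g x ≠ 0 → u x = φ x := by
  by_cases z0 : g x0 = 0
  swap
  · obtain ⟨δ, d0, hδ⟩ := Metric.isOpen_iff.1 (hg.continuousOn.isOpen_inter_preimage hO
      isOpen_compl_singleton) x0 ⟨h0, z0⟩
    exact ⟨_, 0, isOpen_ball, mem_ball_self d0, hδ.trans inter_subset_left, convex_ball _ _,
      fun _ _ _ _ _ _ _ _ _ _ _ => ⟨Classical.arbitrary _,
        fun _ φ _ _ _ _ _ _ _ _ _ _ _ _ _ h _ _ => ⟨φ, h.mono hδ, fun _ _ _ => rfl⟩⟩⟩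
  obtain ⟨K, e0, -, he⟩ := bDIR _ g O x0 hO h0 hg z0 fun h => g0 (h.mono fun x hx => not_not.2 hx)
  let e1 : K ≃L[ℂ] E (Module.finrank ℂ K) := ContinuousLinearEquiv.ofFinrankEq (by simp)
  let e := e0.trans ((ContinuousLinearEquiv.refl ℂ ℂ).prodCongr e1)
  have tr : ∀ {W : Type} [NormedAddCommGroup W] [NormedSpace ℂ W] {f : E n → W} {T : Set (E n)},
      DifferentiableOn ℂ f T → DifferentiableOn ℂ (f ∘ e.symm) (e.symm ⁻¹' T) := fun h =>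
    h.comp e.symm.differentiableOn fun _ hx => hx
  have oO := hO.preimage e.symm.continuous
  obtain ⟨r, c, U, d, α, R⟩ := bWP bFAC bPAR _ (g ∘ e.symm) _ (e x0) oO (by simpa using h0) (tr hg)
    (by simpa [e, EventuallyEq] using he)
  obtain ⟨ρ, r0, hρ⟩ := Metric.isOpen_iff.1 R.opn _ R.mem
  have R' : Roots (g ∘ e.symm) (e.symm ⁻¹' O) (e x0) r c (ball (e x0).2 ρ) α :=
    ⟨R.r0, R.c0, isOpen_ball, mem_ball_self r0, (prod_mono_right hρ).trans R.sub,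
      fun z hz => R.root z (hρ hz), fun z hz => R.low z (hρ hz), fun h hh i => (R.hol h hh i).mono hρ⟩
  set V := ball (e x0).1 r ×ˢ ball (e x0).2 ρ
  have mv : ∀ {P : E n → Prop}, (∀ x ∈ e ⁻¹' V, P x) → ∀ y ∈ V, P (e.symm y) := fun h y hy =>
    h _ (by simpa using hy)
  refine ⟨e ⁻¹' V, d, (isOpen_ball.prod isOpen_ball).preimage e.continuous,
    ⟨mem_ball_self R.r0, mem_ball_self r0⟩, fun x hx => by
      simpa using R'.sub ⟨ball_subset_closedBall hx.1, hx.2⟩,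
    ((convex_ball _ _).prod (convex_ball _ _)).linear_preimage (e.toLinearMap.restrictScalars ℝ),
    fun ι σ _ _ B A m hB gB hA mul => ?_⟩
  obtain ⟨a0, ha⟩ := qz R' oO (tr hB) (mv gB) (A := fun a => A a ∘ e.symm) (m := m)
    (fun a => ⟨tr (hA a).1, (hA a).2.imp fun _ h => mv h⟩)
    fun a b => (mul a b).imp fun _ h => ⟨h.1, mv h.2⟩
  refine ⟨a0, fun Q φ q a κ ε θ C hQ ⟨x, hx, q0⟩ q1 k0 k1 t0 t1 hφ hb hi => ?_⟩
  obtain ⟨u, hu, eu⟩ := core R' oO (tr hg) (tr hB) (tr (hA a).1) (tr (hA a0).1) (tr hQ) (mv gB)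
    (ha a) ⟨e x, hx, by simpa using q0⟩ (mv q1) k0 k1 t0 t1 (tr hφ) (mv hb) (by
      have := e.isAddHaarMeasure_map (volume : Measure (E n))
      rw [Measure.volume_eq_prod, Measure.isAddLeftInvariant_eq_smul (volume.prod volume)
        (Measure.map e volume), Measure.restrict_smul, lintegral_smul_measure]
      refine ENNReal.mul_ne_top ENNReal.coe_ne_top ?_
      have m := e.toHomeomorph.measurableEmbedding
      rw [show Measure.map e volume = Measure.map e.toHomeomorph volume from rfl, m.restrict_map,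
        m.lintegral_map]
      simpa using hi)
  exact ⟨u ∘ e, hu.comp e.differentiableOn fun _ hx => hx, fun x hx g1 => by
    simpa using eu (e x) hx (by simpa using g1)⟩

end Pool.Agent.Lib.KV93
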