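import Pool.Agent.Lib.KV93.Val

/-! Removal of the poles, for quotients. -/

open scoped Topology ENNReal Real Classical
open Set Filter Metric MeasureTheory Complex

noncomputable section

namespace Pool.Agent.Lib.KV93

open Pool.Agent.Lib.SV

variable {n : ℕ} {O : Set (E n)} {x0 : E n} {g : E n → ℂ}

/-- Bounded functions extend, to a neighbourhood that does not depend on them. -/
theorem rie (hO : IsOpen O) (h0 : x0 ∈ O) (hg : DifferentiableOn ℂ g O)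
    (g0 : ∃ᶠ x in 𝓝 x0, g x ≠ 0) : ∃ V, IsOpen V ∧ x0 ∈ V ∧ V ⊆ O ∧
      (∀ x ∈ V, ∃ᶠ y in 𝓝 x, y ∈ V ∧ g y ≠ 0) ∧ ∀ (φ : E n → ℂ) (C : ℝ),
      DifferentiableOn ℂ φ (O ∩ {x | g x ≠ 0}) → (∀ x ∈ O, g x ≠ 0 → ‖φ x‖ ≤ C) →
      ∃ u, DifferentiableOn ℂ u V ∧ ∀ x ∈ V, g x ≠ 0 → u x = φ x := by
  obtain ⟨V, d, oV, mV, sV, cV, h⟩ := val (hO.inter isOpen_ball) ⟨h0, mem_ball_self one_pos⟩
    (hg.mono inter_subset_left) g0
  have sO := sV.trans inter_subset_left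
  refine ⟨V, oV, mV, sO, fun x hx => ?_, fun φ C hφ hC => ?_⟩
  · refine (Frequently.and_eventually (fun e => g0 ?_) (oV.mem_nhds hx)).mono fun _ => And.symm
    have := H85.eqOn_zero_of_preconnected oV cV.isPreconnected (hg.mono sO) hx
      (e.mono fun y hy => not_not.1 hy)
    exact eventually_of_mem (oV.mem_nhds mV) fun y hy => not_not.2 (this hy)
  obtain ⟨-, k⟩ := h Unit Unit (fun x _ => g x) (fun _ _ => 1) (fun _ => 0)
    (differentiableOn_pi.2 fun _ => hg.mono inter_subset_left) (fun x _ => by simp)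
    (fun _ => ⟨differentiableOn_const _, 1, by simp⟩) fun _ _ => ⟨(), rfl, by simp⟩
  refine k 1 φ 0 () 0 0 0 (max C 1) (differentiableOn_const _) ⟨x0, mV, one_ne_zero⟩ (by simp) le_rfl
    (by simp) le_rfl (by simp) (hφ.mono (inter_subset_inter_left _ inter_subset_left))
    (fun x hx g1 => by simpa using Or.inl (hC x (sO hx) g1)) (ne_top_of_le_ne_top
      (ENNReal.mul_ne_top (ENNReal.ofReal_ne_top (r := C ^ 2))
        (measure_ball_lt_top (μ := volume) (x := x0) (r := 1)).ne) ?_)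
  refine (setLIntegral_mono' (((hg.continuousOn.mono sO).isOpen_inter_preimage oV
    isOpen_compl_singleton).measurableSet) (g := fun _ => ENNReal.ofReal (C ^ 2))
      fun x hx => ENNReal.ofReal_le_ofReal ?_).trans ?_
  · simpa using pow_le_pow_left₀ (norm_nonneg _) (hC x (sO hx.1) hx.2) 2
  · rw [setLIntegral_const]
    gcongr
    exact fun x hx => (sV hx.1).2

theorem vec {ι : Type} [Fintype ι] (b : Option ι → ℂ) (h : ι → ℂ) (e : ∀ i, b (some i) = h i * b none) :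
    ‖b‖ ^ 2 ≤ normSq (b none) * (1 + ∑ i, normSq (h i)) ∧
      normSq (b none) * (1 + ∑ i, normSq (h i)) ≤ Fintype.card (Option ι) * ‖b‖ ^ 2 := by
  have s : normSq (b none) * (1 + ∑ i, normSq (h i)) = ∑ i, ‖b i‖ ^ 2 := by
    simp only [Fintype.sum_option, e, Complex.sq_norm, map_mul, ← Finset.sum_mul]
    ring
  rw [s]
  refine ⟨?_, (Finset.sum_le_card_nsmul _ _ _ fun i _ =>
    pow_le_pow_left₀ (norm_nonneg _) (norm_le_pi_norm b i) 2).trans_eq (by simp)⟩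
  refine (Real.le_sqrt (norm_nonneg _) (by positivity)).1 ((pi_norm_le_iff_of_nonneg
    (Real.sqrt_nonneg _)).2 fun i => Real.le_sqrt_of_sq_le ?_)
  exact Finset.single_le_sum (f := fun i => ‖b i‖ ^ 2) (fun _ _ => by positivity) (Finset.mem_univ i)

theorem sq_le {a b C : ℝ} (a0 : 0 ≤ a) (b0 : 0 ≤ b) (h : a ^ 2 ≤ C * b ^ 2) : a ≤ √C * b := by
  have := Real.sqrt_le_sqrt h
  rwa [Real.sqrt_sq a0, Real.sqrt_mul' _ (sq_nonneg _), Real.sqrt_sq b0] at this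

theorem rp {x : ℝ} (h : 0 ≤ x) (θ : ℝ) : x ^ (2 * θ) = (x ^ 2) ^ θ := by
  exact_mod_cast Real.rpow_natCast_mul h 2 θ

theorem fa {φ a g : ℂ} {N b c C θ : ℝ} {m : ℕ} (N0 : 0 ≤ N) (b0 : 0 ≤ b)
    (h : normSq φ * normSq a * normSq g ^ θ ≤ C * N ^ m) (v : normSq g * N ≤ c * b ^ 2) :
    ‖φ‖ * ‖a * g ^ m‖ * ‖g‖ ^ θ ≤ √(|C| * c ^ m) * b ^ m := by
  have n1 := normSq_nonneg g
  refine sq_le (by positivity) (by positivity) ?_
  have e : (‖g‖ ^ θ) ^ 2 = normSq g ^ θ := by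
    rw [← Complex.sq_norm, ← rp (norm_nonneg _), mul_comm, Real.rpow_mul (norm_nonneg _),
      Real.rpow_two]
  calc _ = normSq φ * normSq a * normSq g ^ θ * normSq g ^ m := by
        simp only [mul_pow, e, Complex.sq_norm, map_mul, map_pow]
        ring
    _ ≤ |C| * N ^ m * normSq g ^ m :=
        mul_le_mul_of_nonneg_right (h.trans (by gcongr; exact le_abs_self _)) (by positivity)
    _ = |C| * (normSq g * N) ^ m := by ring
    _ ≤ |C| * (c * b ^ 2) ^ m := by gcongr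
    _ = _ := by ring

theorem fb {φ a g : ℂ} {N b κ e : ℝ} {q : ℕ} (g0 : g ≠ 0) (e0 : 0 ≤ e) (b0 : 0 ≤ b)
    (v : b ^ 2 ≤ normSq g * N) : ‖φ‖ ^ 2 * ‖g‖ ^ (2 * κ) * (b ^ q / ‖a * g ^ q‖) ^ (2 * e) ≤
      normSq φ * normSq g ^ κ * (N ^ q / normSq a) ^ e := by
  have n1 := normSq_pos.2 g0
  have n2 := normSq_nonneg a
  have n3 := normSq_nonneg φ
  rw [rp (norm_nonneg _), rp (by positivity), div_pow, ← pow_mul, mul_comm q, pow_mul]
  simp only [Complex.sq_norm, map_mul, map_pow]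
  gcongr _ * ?_ ^ e
  rw [← mul_div_mul_right (N ^ q) _ (pow_pos n1 q).ne', ← mul_pow, mul_comm N]
  gcongr

/-- Removal of the poles. -/
theorem val2 (hO : IsOpen O) (h0 : x0 ∈ O) (hg : DifferentiableOn ℂ g O)
    (g0 : ∃ᶠ x in 𝓝 x0, g x ≠ 0) : ∃ (V : Set (E n)) (d : ℕ), IsOpen V ∧ x0 ∈ V ∧ V ⊆ O ∧
      (∀ x ∈ V, ∃ᶠ y in 𝓝 x, y ∈ V ∧ g y ≠ 0) ∧
      ∀ (ι σ : Type) [Fintype ι] [Nonempty σ] (h : ι → E n → ℂ) (N : E n → ℝ) (a : σ → E n → ℂ)
      (m : σ → ℕ), (∀ i, DifferentiableOn ℂ (h i) (O ∩ {x | g x ≠ 0})) →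
      (∀ x ∈ O, g x ≠ 0 → N x = 1 + ∑ i, normSq (h i x)) →
      (∃ C, ∀ x ∈ O, g x ≠ 0 → normSq (g x) * N x ≤ C) →
      (∀ s, DifferentiableOn ℂ (a s) (O ∩ {x | g x ≠ 0}) ∧
        ∃ C, ∀ x ∈ O, g x ≠ 0 → normSq (a s x) ≤ C * N x ^ m s) →
      (∀ s t, ∃ u, m u = m s + m t ∧ ∀ x ∈ O, g x ≠ 0 → a u x = a s x * a t x) →
      ∃ s0, ∀ (t u s : σ) (φ : E n → ℂ) (κ e θ C : ℝ), m u = m s0 + m t →
        (∀ x ∈ O, g x ≠ 0 → a u x = a s0 x * a t x) → (∃ x ∈ V, g x ≠ 0 ∧ a u x ≠ 0) →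
        0 ≤ κ → d * κ ≤ e → 0 ≤ θ → d * θ < 1 → DifferentiableOn ℂ φ (O ∩ {x | g x ≠ 0}) →
        (∀ x ∈ V, g x ≠ 0 → normSq (φ x) * normSq (a s x) * normSq (g x) ^ θ ≤ C * N x ^ m s) →
        ∫⁻ x in V ∩ {x | g x ≠ 0}, ENNReal.ofReal
          (normSq (φ x) * normSq (g x) ^ κ * (N x ^ m u / normSq (a u x)) ^ e) ≠ ⊤ →
        ∃ v, DifferentiableOn ℂ v V ∧ ∀ x ∈ V, g x ≠ 0 → v x = φ x := by
  obtain ⟨U, oU, mU, sU, dU, hU⟩ := rie hO h0 hg g0
  obtain ⟨V, d, oV, mV, sV, -, hV⟩ := val oU mU (hg.mono sU) g0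
  have dV : ∀ x ∈ V, ∃ᶠ y in 𝓝 x, y ∈ V ∧ g y ≠ 0 := fun x hx =>
    ((dU x (sV hx)).and_eventually (oV.mem_nhds hx)).mono fun y hy => ⟨hy.2, hy.1.2⟩
  have dn : ∀ {f f' : E n → ℝ}, ContinuousOn f U → ContinuousOn f' U →
      (∀ x ∈ V, g x ≠ 0 → f x ≤ f' x) → ∀ x ∈ V, f x ≤ f' x := fun c c' h x hx =>
    le_of_tendsto_of_tendsto_of_frequently (c.continuousAt (oU.mem_nhds (sV hx)))
      (c'.continuousAt (oU.mem_nhds (sV hx))) ((dV x hx).mono fun y hy => h y hy.1 hy.2)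
  refine ⟨V, d, oV, mV, sV.trans sU, dV, fun ι σ _ _ h N a m hh hN ⟨G, hG⟩ ha mul => ?_⟩
  have gD := hg.mono (inter_subset_left (t := {x | g x ≠ 0}))
  have N0 : ∀ x ∈ O, g x ≠ 0 → 0 < N x := fun x hx g1 => by
    have := Finset.sum_nonneg fun i (_ : i ∈ Finset.univ) => normSq_nonneg (h i x)
    linarith [hN x hx g1]
  choose b hb eb using fun i => hU (fun x => h i x * g x) √G ((hh i).mul gD) fun x hx g1 =>
    Real.le_sqrt_of_sq_le (le_trans (by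
      have := Finset.single_le_sum (fun i _ => normSq_nonneg (h i x)) (Finset.mem_univ i)
      rw [Complex.sq_norm, map_mul, mul_comm, hN x hx g1]
      exact mul_le_mul_of_nonneg_left (by linarith) (normSq_nonneg _)) (hG x hx g1))
  choose K hK using fun s => (ha s).2
  have pw : ∀ s, ∀ x ∈ O, g x ≠ 0 → ‖a s x * g x ^ m s‖ ^ 2 ≤ |K s| * (normSq (g x) * N x) ^ m s :=
    fun s x hx g1 => by
      have := N0 x hx g1
      have := normSq_nonneg (g x)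
      rw [Complex.sq_norm, map_mul, map_pow, mul_pow, mul_comm (_ ^ m s), ← mul_assoc]
      gcongr
      exact (hK s x hx g1).trans (by gcongr; exact le_abs_self _)
  choose A hA eA using fun s => hU (fun x => a s x * g x ^ m s) √(|K s| * G ^ m s)
    ((ha s).1.mul (gD.pow _)) fun x hx g1 => Real.le_sqrt_of_sq_le ((pw s x hx g1).trans (by
      have := mul_nonneg (normSq_nonneg (g x)) (N0 x hx g1).le
      gcongr
      exact hG x hx g1))
  set B : E n → Option ι → ℂ := fun x i => i.elim (g x) fun i => b i x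
  have hB : DifferentiableOn ℂ B U := differentiableOn_pi.2 fun i => by
    cases i
    exacts [hg.mono sU, hb _]
  have vB : ∀ x ∈ V, g x ≠ 0 → ‖B x‖ ^ 2 ≤ normSq (g x) * N x ∧
      normSq (g x) * N x ≤ Fintype.card (Option ι) * ‖B x‖ ^ 2 := fun x hx g1 => by
    rw [hN x (sU (sV hx)) g1]
    exact vec (B x) _ fun i => eb i x (sV hx) g1
  have aB : ∀ s, ∃ C, ∀ x ∈ V, ‖A s x‖ ≤ C * ‖B x‖ ^ m s := fun s =>
    ⟨_, dn (hA s).continuousOn.norm (continuousOn_const.mul (hB.continuousOn.norm.pow _))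
      fun x hx g1 => by
        simpa [eA s x (sV hx) g1] using fa (φ := 1) (θ := 0) (N0 x (sU (sV hx)) g1).le
          (norm_nonneg _) (by simpa using hK s x (sU (sV hx)) g1) (vB x hx g1).2⟩
  have mA : ∀ s t u, m u = m s + m t → (∀ x ∈ O, g x ≠ 0 → a u x = a s x * a t x) →
      ∀ x ∈ V, A u x = A s x * A t x := fun s t u e1 e2 x hx => sub_eq_zero.1 (norm_le_zero_iff.1
    (dn ((hA u).sub ((hA s).mul (hA t))).continuousOn.norm continuousOn_const (fun y hy g1 => by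
      simp only [Pi.sub_apply, Pi.mul_apply, eA _ y (sV hy) g1, e2 y (sU (sV hy)) g1, e1]
      exact le_of_eq (norm_eq_zero.2 (by ring))) x hx))
  obtain ⟨s0, hs⟩ := hV _ σ B A m hB (fun x _ => norm_le_pi_norm (B x) none)
    (fun s => ⟨hA s, aB s⟩) fun s t => (mul s t).imp fun u hu => ⟨hu.1, mA s t u hu.1 hu.2⟩
  refine ⟨s0, fun t u s φ κ e θ C e1 e2 ⟨x, hx, g1, a1⟩ k0 k1 t0 t1 hφ hb hi => ?_⟩
  obtain ⟨D, hD⟩ := aB t
  set C' := √(|C| * (Fintype.card (Option ι) : ℝ) ^ m s)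
  refine hs (A u) φ (m u) s κ e θ (max D C') (hA u)
    ⟨x, hx, by rw [eA u x (sV hx) g1]; exact mul_ne_zero a1 (pow_ne_zero _ g1)⟩ (fun y hy => ?_)
    k0 k1 t0 t1 (hφ.mono (inter_subset_inter_left _ sU)) (fun y hy g2 => ?_)
    (ne_top_of_le_ne_top hi (setLIntegral_mono' (((hg.continuousOn.mono (sV.trans sU)).isOpen_inter_preimage
      oV isOpen_compl_singleton).measurableSet) fun y hy => ENNReal.ofReal_le_ofReal ?_))
  · rw [mA s0 t u e1 e2 y hy, norm_mul, e1, pow_add]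
    refine le_trans (b := ‖A s0 y‖ * (max D C' * ‖B y‖ ^ m t) * ‖B y‖ ^ m s0) ?_ (le_of_eq (by ring))
    gcongr
    exact (hD y hy).trans (by gcongr; exact le_max_left _ _)
  · rw [eA s y (sV hy) g2]
    exact (fa (N0 y (sU (sV hy)) g2).le (norm_nonneg _) (hb y hy g2) (vB y hy g2).2).trans
      (by gcongr; exact le_max_right _ _)
  · rw [eA u y (sV hy.1) hy.2]
    exact fb hy.2 (le_trans (by positivity) k1) (norm_nonneg _) (vB y hy.1 hy.2).1

end Pool.Agent.Lib.KV93
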